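import Pool.Agent.MP_1acf33_an.Basic

/-!
The action of the algebra is bounded.
-/

set_option linter.style.haveILetI false
set_option linter.unusedSectionVars false

namespace Pool.Agent.MP_1acf33_an

open scoped InnerProductSpace

variable {A : Type*} [CStarAlgebra A] {H : Type*} [NormedAddCommGroup H]
  [InnerProductSpace ℂ H] [CompleteSpace H]
namespace Pre

variable {P : Pre A H}

/-- The family `cg` is the part of the corrections built after time `s`. -/
structure IsCg (P : Pre A H) (s : ℕ) (cg : ℕ → (ℕ → H) →ₗ[ℂ] H) : Prop where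
  bd : ∀ n y B, P.NB n y B → ‖cg n y‖ ≤ 4 * B
  close : ∀ n y B M, P.NB n y B → P.Low y s → (∀ c r, ‖P.raw c r y‖ ≤ M) →
    ‖(P.h n).cm y - cg n y‖ ≤ M + B / 4
  defect : ∀ n y B, P.NB n y B → ∀ a ∈ P.R.V s,
    ‖cg n (P.R.T a y) - P.R.π a (cg n y)‖ ≤ 30 * eps s * ‖a‖ * B
  eq : ∀ n, s ≤ (P.h n).st → cg n = (P.h n).cm
  dep : ∀ n, P.Dep (cg n) s n

variable [hG : P.Good]

omit hG in
theorem IsStep.b_le {n : ℕ} (h : P.IsStep n) {y : ℕ → H} {B : ℝ} (hB : P.NB n y B) :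
    (mm (P.h n).w)⁻¹ * ‖(P.h n).b y‖ ≤ B / 8 := by
  have h1 := h.vB.bd y B (hB.mono h.q le_rfl)
  have h2 : (mm (P.h n).w)⁻¹ ≤ 8⁻¹ := inv_anti₀ (by norm_num) (eight_le_mm _)
  calc (mm (P.h n).w)⁻¹ * ‖(P.h n).b y‖ ≤ 8⁻¹ * B :=
        mul_le_mul h2 h1 (norm_nonneg _) (by norm_num)
    _ = B / 8 := by ring

/-- The inductive form of `IsCg` at one node. -/
structure IsCg1 (P : Pre A H) (s n : ℕ) (c : (ℕ → H) →ₗ[ℂ] H) : Prop where
  near : ∀ y B, P.NB n y B → ‖(P.h n).cm y - c y‖ ≤ 2 * B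
  close : ∀ y B M, P.NB n y B → P.Low y s → (∀ c r, ‖P.raw c r y‖ ≤ M) →
    ‖(P.h n).cm y - c y‖ ≤ M + B / 4
  defect : ∀ y B, P.NB n y B → ∀ a ∈ P.R.V s,
    ‖c (P.R.T a y) - P.R.π a (c y)‖ ≤ 30 * (eps s - eps (max s (P.h n).l)) * ‖a‖ * B
  eq : s ≤ (P.h n).st → c = (P.h n).cm
  dep : P.Dep c s n

theorem IsCg1.bd {s n : ℕ} {c : (ℕ → H) →ₗ[ℂ] H} (h : P.IsCg1 s n c) {y : ℕ → H} {B : ℝ}
    (hB : P.NB n y B) : ‖c y‖ ≤ 4 * B := by
  have h1 := h.near y B hB
  have h2 := norm_cm_le hB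
  have h3 := norm_sub_le ((P.h n).cm y) ((P.h n).cm y - c y)
  rw [sub_sub_cancel] at h3
  linarith

theorem isCg1_zero {s n : ℕ} (h1 : s ≤ (P.h n).st → (P.h n).cm = 0)
    (h2 : ∀ y B M, P.NB n y B → P.Low y s → (∀ c r, ‖P.raw c r y‖ ≤ M) →
      ‖(P.h n).cm y‖ ≤ M + B / 4) : P.IsCg1 s n 0 where
  near y B hB := by simpa using norm_cm_le hB
  close y B M hB hl hM := by simpa using h2 y B M hB hl hM
  defect y B hB a _ := by
    have h3 : 0 ≤ eps s - eps (max s (P.h n).l) := sub_nonneg.2 (eps_anti (le_max_left _ _))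
    have h4 := hB.1
    simp only [LinearMap.zero_apply, map_zero, sub_self, norm_zero]
    positivity
  eq h := (h1 h).symm
  dep _ _ := rfl

theorem isCg1_step {s n : ℕ} (h : P.IsStep n) (hs : s ≤ (P.h (P.h n).ξ).l)
    {c : (ℕ → H) →ₗ[ℂ] H} (hc : P.IsCg1 s (P.h n).ξ c) : ∃ c', P.IsCg1 s n c' := by
  have hξ := h.ξ_lt
  have hl := l_le (P := P) (P.h n).ξ
  have hq := h.q
  set ξ := (P.h n).ξ with hξd
  let c' : (ℕ → H) →ₗ[ℂ] H := ((P.h n).U : H →ₗ[ℂ] H) ∘ₗ (P.g ξ ξ : H →ₗ[ℂ] H) ∘ₗ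
    (LinearMap.proj ξ + c) + ((mm (P.h n).w : ℂ)⁻¹) • (P.h n).b
  have hc' : ∀ y, c' y = (P.h n).U (P.g ξ ξ (y ξ + c y)) + ((mm (P.h n).w : ℂ)⁻¹) • (P.h n).b y :=
    fun y => rfl
  have hd : ∀ y, (P.h n).cm y - c' y = (P.h n).U (P.g ξ ξ ((P.h ξ).cm y - c y)) := by
    intro y
    rw [h.cm, hc', fE_apply]
    simp only [map_add, map_sub]
    abel
  have hn : ∀ y, ‖(P.h n).cm y - c' y‖ ≤ ‖(P.h ξ).cm y - c y‖ := fun y => by
    rw [hd]; exact (h.norm_U_le _).trans (P.norm_g_le _ _ _)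
  refine ⟨c', fun y B hB => (hn y).trans (hc.near y B (hB.mono hξ.le le_rfl)),
    fun y B M hB h1 h2 => (hn y).trans (hc.close y B M (hB.mono hξ.le le_rfl) h1 h2), ?_, ?_, ?_⟩
  · intro y B hB a ha
    have hB0 := hB.1
    have ha' : a ∈ P.R.V (P.h ξ).l := P.R.V_mono hs ha
    set v := y ξ + c y with hv
    have hw : ‖P.win ξ ξ (ξ + 1) v‖ ≤ 7 * B := by
      rw [hv, map_add]
      have h1 : ‖P.win ξ ξ (ξ + 1) (y ξ)‖ ≤ 3 * B := hB.raw_le ξ hξ
      have h2 := (P.norm_win_le (c := ξ) (Nat.le_succ ξ) (c y)).trans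
        (hc.bd (hB.mono hξ.le le_rfl))
      linarith [norm_add_le (P.win ξ ξ (ξ + 1) (y ξ)) (P.win ξ ξ (ξ + 1) (c y))]
    have e : c' (P.R.T a y) - P.R.π a (c' y) =
        (P.h n).U (P.g ξ ξ (c (P.R.T a y) - P.R.π a (c y)))
        + (P.h n).U (P.g ξ ξ (P.R.π a v) - P.R.π a (P.g ξ ξ v))
        + ((P.h n).U (P.R.π a (P.g ξ ξ v)) - P.R.π a ((P.h n).U (P.g ξ ξ v)))
        + ((mm (P.h n).w : ℂ)⁻¹) • ((P.h n).b (P.R.T a y) - P.R.π a ((P.h n).b y)) := by
      rw [hc', hc', hv, Amb.T_apply]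
      simp only [map_add, map_sub, map_smul, smul_sub]
      abel
    have hab : 0 ≤ ‖a‖ * B := by positivity
    have b1 : ‖(P.h n).U (P.g ξ ξ (c (P.R.T a y) - P.R.π a (c y)))‖ ≤
        30 * (eps s - eps (P.h ξ).l) * ‖a‖ * B := by
      have := hc.defect y B (hB.mono hξ.le le_rfl) a ha
      rw [max_eq_right hs] at this
      exact (h.norm_U_le _).trans ((P.norm_g_le _ _ _).trans this)
    have b2 : ‖(P.h n).U (P.g ξ ξ (P.R.π a v) - P.R.π a (P.g ξ ξ v))‖ ≤
        eps ξ * ‖a‖ * (7 * B) :=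
      (h.norm_U_le _).trans ((P.norm_comm_g (hs.trans hl) ha v).trans
        (mul_le_mul_of_nonneg_left hw (mul_nonneg (eps_pos _).le (norm_nonneg _))))
    have b3 : ‖(P.h n).U (P.R.π a (P.g ξ ξ v)) - P.R.π a ((P.h n).U (P.g ξ ξ v))‖ ≤
        eps (P.h ξ).l * ‖a‖ * (7 * B) :=
      (h.vU.2 a ha' _).trans (mul_le_mul_of_nonneg_left ((P.norm_g_self_le ξ v).trans hw)
        (mul_nonneg (eps_pos _).le (norm_nonneg _)))
    have b4 : ‖((mm (P.h n).w : ℂ)⁻¹) • ((P.h n).b (P.R.T a y) - P.R.π a ((P.h n).b y))‖ ≤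
        eps (P.h ξ).l * ‖a‖ * B := by
      rw [norm_smul, norm_inv_mm]
      have h1 := h.vB.defect y B (hB.mono hq le_rfl) a ha'
      have h2 : (mm (P.h n).w)⁻¹ ≤ 1 :=
        inv_le_one_of_one_le₀ (le_trans (by norm_num) (eight_le_mm _))
      calc _ ≤ 1 * (eps (P.h ξ).l * ‖a‖ * B) := mul_le_mul h2 h1 (norm_nonneg _) zero_le_one
        _ = _ := one_mul _
    rw [e, h.l, ← hξd, max_eq_right (by omega)]
    have b5 := mul_le_mul_of_nonneg_right (eps_anti hl) hab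
    have b6 : eps (ξ + 1) = eps ξ / 2 := by rw [← eps_succ ξ]; ring
    rw [b6]
    refine (norm_add_le_of_le (norm_add_le_of_le (norm_add_le_of_le b1 b2) b3) b4).trans ?_
    nlinarith
  · intro hst
    rw [h.st] at hst
    ext1 y
    have := hd y
    rw [← hc.eq hst, sub_self, map_zero, map_zero] at this
    exact (sub_eq_zero.1 this).symm
  · intro y hy
    have h1 : P.raw ξ ξ y = 0 := hy ξ ξ le_rfl (hs.trans hl) hξ
    have h2 : c y = 0 := hc.dep y (hy.mono le_rfl hξ.le)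
    have h3 : (P.h n).b y = 0 := h.vB.dep y (hy.mono (by omega) (by omega))
    rw [hc', h2, h3, add_zero, ← g_win_self, ← raw_apply, h1]
    simp

theorem exists_cg1 (s n : ℕ) : ∃ c, P.IsCg1 s n c := by
  induction n using Nat.strong_induction_on with
  | _ n ih =>
    rcases hG.cases n with h | h
    · refine ⟨0, isCg1_zero (fun _ => h.cm) fun y B M hB _ hM => ?_⟩
      have h1 := (norm_nonneg _).trans (hM 0 0)
      have h2 := hB.1
      rw [h.cm, LinearMap.zero_apply, norm_zero]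
      positivity
    · rcases le_or_gt s (P.h (P.h n).ξ).l with hs | hs
      · obtain ⟨c, hc⟩ := ih _ h.ξ_lt
        exact isCg1_step h hs hc
      · refine ⟨0, isCg1_zero (fun hst => ?_) fun y B M hB hl hM => ?_⟩
        · have := st_le_l (P := P) (P.h n).ξ
          rw [h.st] at hst
          omega
        · have h1 := h.norm_cm_le y
          have h2 := h.b_le hB
          have hB' := hB.mono h.ξ_lt.le le_rfl
          have hB0 := hB.1
          generalize (P.h n).ξ = ξ at *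
          have h3 : ‖(P.h ξ).cm y‖ ≤ B / 8 := by
            rcases hG.cases ξ with h' | h'
            · rw [h'.cm, LinearMap.zero_apply, norm_zero]; positivity
            · have h4 := h'.norm_cm_le y
              rw [fE_eq_zero (hl.van _ (by rw [h'.l] at hs; omega)), norm_zero, zero_add] at h4
              exact h4.trans (h'.b_le hB')
          have h4 : ‖P.fE ξ y‖ ≤ M + B / 8 := by
            rw [fE_eq_add]
            exact norm_add_le_of_le ((P.norm_g_le _ _ _).trans (hM _ _)) h3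
          linarith

theorem exists_cg (s : ℕ) : ∃ cg, P.IsCg s cg := by
  choose cg hcg using exists_cg1 (P := P) s
  refine ⟨cg, fun n y B hB => (hcg n).bd hB, fun n => (hcg n).close, fun n y B hB a ha => ?_,
    fun n => (hcg n).eq, fun n => (hcg n).dep⟩
  refine ((hcg n).defect y B hB a ha).trans ?_
  have h1 := (eps_pos (max s (P.h n).l)).le
  have h2 := hB.1
  gcongr
  linarith

theorem Bd.T_low {y : ℕ → H} {B : ℝ} (h : P.Bd y B) {s : ℕ} (hy : P.Low y (s + 2)) {a : A}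
    (ha : a ∈ P.R.V s) : P.Bd (P.R.T a y) (70 * ‖a‖ * B) := by
  obtain ⟨cg, hcg⟩ := exists_cg (P := P) s
  have hB := h.nonneg
  have hab : 0 ≤ ‖a‖ * B := by positivity
  have hl : P.Low (P.R.T a y) (s + 1) := hy.T (Nat.le_succ s) ha
  have hr : ∀ c r, ‖P.raw c r (P.R.T a y)‖ ≤ 9 * ‖a‖ * B := by
    intro c r
    rcases lt_or_ge r (s + 1) with hr | hr
    · rw [hl.raw_eq_zero c hr, norm_zero]; positivity
    · exact (h.nb (r + 2)).raw_T_le c hr (by omega) ha
  refine bd_of_forall_nb fun k => ?_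
  induction k with
  | zero => exact ⟨by positivity, fun c r _ hr => absurd hr (Nat.not_lt_zero r)⟩
  | succ k ih =>
    refine ⟨ih.1, fun c r hcr hr' => ?_⟩
    rcases lt_or_ge r k with hk | hk
    · exact ih.2 c r hcr hk
    obtain rfl : r = k := by omega
    by_cases hc : c = r
    · subst hc
      have h1 := hcg.close c _ _ _ ih (hl.mono (Nat.le_succ s)) hr
      have h2 := hcg.defect c y B (h.nb c) a ha
      have h3 := (P.R.norm_π_apply_le a (cg c y)).trans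
        (mul_le_mul_of_nonneg_left (hcg.bd c y B (h.nb c)) (norm_nonneg a))
      have h4 := mul_le_mul_of_nonneg_right (eps_le_one s) hab
      have h5 := norm_add_le ((P.h c).cm (P.R.T a y) - cg c (P.R.T a y))
        (cg c (P.R.T a y) - P.R.π a (cg c y))
      have h6 := norm_add_le ((P.h c).cm (P.R.T a y) - cg c (P.R.T a y) +
        (cg c (P.R.T a y) - P.R.π a (cg c y))) (P.R.π a (cg c y))
      rw [sub_add_sub_cancel, sub_add_cancel] at h6
      rw [sub_add_sub_cancel] at h5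
      rw [co_self]
      refine (norm_add_le _ _).trans ?_
      linarith [hr c c]
    · rw [co_eq_raw hc]
      linarith [hr c r]

theorem IsCg.bd_of_raw {s : ℕ} {cg : ℕ → (ℕ → H) →ₗ[ℂ] H} (hcg : P.IsCg s cg) {y : ℕ → H}
    {q : ℕ} {M : ℝ} (hM : 0 ≤ M) (h1 : P.Low y s) (h2 : P.Upto y q)
    (h3 : ∀ c r, ‖P.raw c r y‖ ≤ M) (h4 : ∀ n, n < q → ‖cg n y‖ ≤ M) : P.Bd y (8 * M) := by
  have key : ∀ k, k ≤ q → P.NB k y (4 * M) := by
    intro k
    induction k with
    | zero => exact fun _ => ⟨by positivity, fun c r _ hr => absurd hr (Nat.not_lt_zero r)⟩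
    | succ k ih =>
      intro hk
      have ih := ih (by omega)
      refine ⟨ih.1, fun c r hcr hr' => ?_⟩
      rcases lt_or_ge r k with hk | hk
      · exact ih.2 c r hcr hk
      obtain rfl : r = k := by omega
      by_cases hc : c = r
      · subst hc
        have h5 := hcg.close c _ _ _ ih h1 h3
        have h6 := norm_add_le ((P.h c).cm y - cg c y) (cg c y)
        rw [sub_add_cancel] at h6
        rw [co_self]
        refine (norm_add_le _ _).trans ?_
        linarith [h3 c c, h4 c (by omega)]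
      · rw [co_eq_raw hc]
        linarith [h3 c r]
  exact (h2.bd (key q le_rfl)).mono (le_of_eq (by ring))

theorem exists_bd_T (s : ℕ) {a : A} (ha : a ∈ P.R.V s) :
    ∃ M : ℝ, 0 ≤ M ∧ ∀ y B, P.Bd y B → P.Bd (P.R.T a y) (M * B) := by
  refine ⟨2 * (3 ^ (s + 3) * (‖a‖ * ((s + 2 : ℕ) * 6))) + 210 * ‖a‖, by positivity,
    fun y B h => ?_⟩
  have hB := h.nonneg
  have h1 : P.Bd (P.Pq (s + 2) y) (2 * B) := (h.nb (s + 2)).Pq
  have h2 := (h.sub h1).T_low (low_sub_Pq _ _) ha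
  have hu := upto_Pq (P := P) (s + 2) y
  have h3 : ∀ c r, r < s + 3 →
      ‖P.raw c r (P.R.T a (P.Pq (s + 2) y))‖ ≤ ‖a‖ * ((s + 2 : ℕ) * (3 * (2 * B))) := by
    intro c r _
    rw [raw_apply, Amb.T_apply]
    refine (P.norm_win_le (Nat.le_succ r) _).trans ((P.R.norm_π_apply_le _ _).trans ?_)
    refine mul_le_mul_of_nonneg_left ?_ (norm_nonneg a)
    have := (h1.nb (s + 2)).win_le c (Nat.zero_le (s + 2)) le_rfl
    rwa [← p_eq_win, hu c, Nat.sub_zero] at this
  have h4 := (hu.T (by omega) ha).bd (nb_of_raw (by positivity) h3)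
  have h5 := h4.add h2
  rw [← map_add, add_sub_cancel] at h5
  exact h5.mono (le_of_eq (by ring))

theorem fE_defect {n s : ℕ} (hs : s ≤ (P.h n).st) {y : ℕ → H} {B : ℝ} (h : P.NB (n + 1) y B)
    {a : A} (ha : a ∈ P.R.V s) :
    ‖P.fE n (P.R.T a y) - P.R.π a (P.fE n y)‖ ≤ 31 * eps s * ‖a‖ * B := by
  obtain ⟨cg, hcg⟩ := exists_cg (P := P) s
  have hsn : s ≤ n := hs.trans (st_le n)
  have h1 := hcg.defect n y B (h.mono (Nat.le_succ n) le_rfl) a ha
  rw [hcg.eq n hs] at h1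
  have h2 := P.norm_comm_g (c := n) hsn ha (y n + (P.h n).cm y)
  rw [← co_apply] at h2
  have h3 := h.le n (Nat.lt_succ_self n)
  have e : P.fE n (P.R.T a y) - P.R.π a (P.fE n y) =
      P.g n n ((P.h n).cm (P.R.T a y) - P.R.π a ((P.h n).cm y)) +
      (P.g n n (P.R.π a (y n + (P.h n).cm y)) - P.R.π a (P.g n n (y n + (P.h n).cm y))) := by
    rw [fE_apply, fE_apply, Amb.T_apply]
    simp only [map_add, map_sub]
    abel
  have h4 : eps n * ‖a‖ * ‖P.co n n y‖ ≤ eps s * ‖a‖ * B := by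
    have := eps_anti hsn
    have := (eps_pos s).le
    gcongr
  rw [e]
  refine (norm_add_le_of_le ((P.norm_g_le _ _ _).trans h1) (h2.trans h4)).trans (le_of_eq ?_)
  ring

theorem validB_odd {ξ η : ℕ} (hodd : Odd (P.h ξ).w) (hw : (P.h η).w = 2 * ξ + 2)
    (hst : ξ + 5 ≤ (P.h η).st) : P.ValidB ξ η η (P.cand ξ η η []) := by
  have hc : P.cand ξ η η [] = P.fE η := by rw [cand, if_pos hodd]
  have h1 := st_le (P := P) η
  have h2 := l_le (P := P) ξ
  rw [hc]
  refine ⟨by omega, fun y hy => fE_eq_zero (hy.mono (by omega) le_rfl), fun y B hB => ?_,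
    fun y B hB a ha => ?_, fun _ => ⟨le_rfl, hw, rfl⟩⟩
  · exact (P.norm_fE_le η y).trans (hB.le η (by omega))
  · refine (fE_defect hst (hB.mono (by omega) le_rfl) (P.R.V_mono (by omega) ha)).trans ?_
    have h3 := eps_add ξ 5
    have h4 := eps_anti h2
    have h5 := eps_pos (ξ + 5)
    have h6 := hB.1
    gcongr
    linarith

end Pre

end Pool.Agent.MP_1acf33_an
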