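import Pool.Agent.MP_1acf33_an.Proj

/-!
Ambient data: a faithful representation with infinite multiplicity, a separating vector,
an exhausting sequence of finite-dimensional subspaces of the algebra, countable dense families.
-/

set_option linter.style.haveILetI false
set_option linter.unusedSectionVars false

namespace Pool.Agent.MP_1acf33_an

open scoped InnerProductSpace

/-- Ambient data for the construction. -/
structure Amb (A : Type*) [CStarAlgebra A] (H : Type*) [NormedAddCommGroup H]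
    [InnerProductSpace ℂ H] [CompleteSpace H] where
  π : A →⋆ₐ[ℂ] (H →L[ℂ] H)
  W : ℕ → H →L[ℂ] H
  W_inner : ∀ i j x y, ⟪W i x, W j y⟫_ℂ = if i = j then ⟪x, y⟫_ℂ else 0
  W_comm : ∀ i a x, π a (W i x) = W i (π a x)
  Ω : H
  Ω_norm : ‖Ω‖ ≤ 1
  Ω_sep : ∀ a, π a Ω = 0 → a = 0
  V : ℕ → Submodule ℂ A
  V_fd : ∀ n, FiniteDimensional ℂ (V n)
  V_one : ∀ n, (1 : A) ∈ V n
  V_star : ∀ n a, a ∈ V n → star a ∈ V n
  V_mul : ∀ n a b, a ∈ V n → b ∈ V n → a * b ∈ V (n + 1)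
  V_dense : ∀ (a : A) (ε : ℝ), 0 < ε → ∃ n, ∃ v ∈ V n, ‖a - v‖ < ε
  D : ℕ → H
  D_dense : DenseRange D
  O : ℕ → H →L[ℂ] H
  O_dense : ∀ B : H →L[ℂ] H, FiniteDimensional ℂ (LinearMap.range (B : H →ₗ[ℂ] H)) →
    ∀ ε : ℝ, 0 < ε → ∃ i, ‖B - O i‖ < ε

variable {A : Type*} [CStarAlgebra A] {H : Type*} [NormedAddCommGroup H]
  [InnerProductSpace ℂ H] [CompleteSpace H]

namespace Amb

variable (R : Amb A H)

theorem V_mono : Monotone R.V :=
  monotone_nat_of_le_succ fun n a ha => by simpa using R.V_mul n a 1 ha (R.V_one n)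

theorem π_inj : Function.Injective R.π := by
  intro a b h
  have := R.Ω_sep (a - b) (by rw [map_sub, h, sub_self]; rfl)
  exact sub_eq_zero.mp this

theorem norm_π (a : A) : ‖R.π a‖ = ‖a‖ :=
  NonUnitalStarAlgHom.norm_map R.π R.π_inj a

theorem norm_π_apply_le (a : A) (x : H) : ‖R.π a x‖ ≤ ‖a‖ * ‖x‖ := by
  rw [← R.norm_π]; exact (R.π a).le_opNorm x

theorem inner_π_star (a : A) (x y : H) : ⟪R.π (star a) x, y⟫_ℂ = ⟪x, R.π a y⟫_ℂ := by
  rw [map_star, ContinuousLinearMap.star_eq_adjoint, ContinuousLinearMap.adjoint_inner_left]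

theorem π_mul_apply (a b : A) (x : H) : R.π (a * b) x = R.π a (R.π b x) := by
  rw [map_mul]; rfl

/-- `Ω'` dominates the separating vector. -/
def Sep (Ω' : H) : Prop := ∀ a : A, ‖R.π a R.Ω‖ ≤ ‖R.π a Ω'‖

end Amb

end Pool.Agent.MP_1acf33_an
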