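import Pool.Agent.MP_1acf33_an.Sys

/-!
Basic properties of a correctly built system.
-/

set_option linter.style.haveILetI false
set_option linter.unusedSectionVars false

namespace Pool.Agent.MP_1acf33_an

open scoped InnerProductSpace

variable {A : Type*} [CStarAlgebra A] {H : Type*} [NormedAddCommGroup H]
  [InnerProductSpace ℂ H] [CompleteSpace H]

namespace Pre

variable {P : Pre A H}

/-! ### Linear algebra of the predicates -/

theorem Low.mono {y : ℕ → H} {lo lo' : ℕ} (h : P.Low y lo) (h' : lo' ≤ lo) : P.Low y lo' := fun c => by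
  rw [← P.p_p_of_le h', h c, map_zero]

theorem Upto.mono {y : ℕ → H} {q q' : ℕ} (h : P.Upto y q) (h' : q ≤ q') : P.Upto y q' := fun c => by
  rw [← h c, P.p_p_of_ge h']

theorem Van.mono {y : ℕ → H} {lo hi lo' hi' : ℕ} (h : P.Van y lo hi) (h1 : lo ≤ lo')
    (h2 : hi' ≤ hi) : P.Van y lo' hi' := fun c r h3 h4 h5 =>
  h c r h3 (h1.trans h4) (h5.trans_le h2)

theorem Dep.mono {b : (ℕ → H) →ₗ[ℂ] H} {lo hi lo' hi' : ℕ} (h : P.Dep b lo hi) (h1 : lo' ≤ lo)
    (h2 : hi ≤ hi') : P.Dep b lo' hi' := fun y hy =>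
  h y (hy.mono h1 h2)

theorem low_zero (lo : ℕ) : P.Low 0 lo := fun _ => map_zero _

theorem upto_zero (q : ℕ) : P.Upto 0 q := fun _ => map_zero _

theorem Low.add {y y' : ℕ → H} {lo : ℕ} (h : P.Low y lo) (h' : P.Low y' lo) :
    P.Low (y + y') lo := fun c => by
  rw [Pi.add_apply, map_add, h c, h' c, add_zero]

theorem Low.sub {y y' : ℕ → H} {lo : ℕ} (h : P.Low y lo) (h' : P.Low y' lo) :
    P.Low (y - y') lo := fun c => by
  rw [Pi.sub_apply, map_sub, h c, h' c, sub_zero]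

theorem Low.smul {y : ℕ → H} {lo : ℕ} (h : P.Low y lo) (k : ℂ) : P.Low (k • y) lo := fun c => by
  rw [Pi.smul_apply, map_smul, h c, smul_zero]

theorem low_sum {ι : Type*} {J : Finset ι} {x : ι → ℕ → H} {lo : ℕ}
    (h : ∀ k ∈ J, P.Low (x k) lo) : P.Low (∑ k ∈ J, x k) lo := fun c => by
  rw [Finset.sum_apply, map_sum]
  exact Finset.sum_eq_zero fun k hk => h k hk c

theorem Upto.add {y y' : ℕ → H} {q : ℕ} (h : P.Upto y q) (h' : P.Upto y' q) :
    P.Upto (y + y') q := fun c => by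
  rw [Pi.add_apply, map_add, h c, h' c]

theorem Upto.sub {y y' : ℕ → H} {q : ℕ} (h : P.Upto y q) (h' : P.Upto y' q) :
    P.Upto (y - y') q := fun c => by
  rw [Pi.sub_apply, map_sub, h c, h' c]

theorem Upto.smul {y : ℕ → H} {q : ℕ} (h : P.Upto y q) (k : ℂ) : P.Upto (k • y) q := fun c => by
  rw [Pi.smul_apply, map_smul, h c]

theorem upto_sum {ι : Type*} {J : Finset ι} {x : ι → ℕ → H} {q : ℕ}
    (h : ∀ k ∈ J, P.Upto (x k) q) : P.Upto (∑ k ∈ J, x k) q := fun c => by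
  rw [Finset.sum_apply, map_sum]
  exact Finset.sum_congr rfl fun k hk => h k hk c

theorem Low.raw_eq_zero {y : ℕ → H} {lo : ℕ} (h : P.Low y lo) (c : ℕ) {r : ℕ} (hr : r < lo) :
    P.raw c r y = 0 := by
  rw [raw_apply, win_apply, h.mono hr.le c, h.mono (Nat.succ_le_of_lt hr) c, sub_self]

theorem Upto.raw_eq_zero {y : ℕ → H} {q : ℕ} (h : P.Upto y q) (c : ℕ) {r : ℕ} (hr : q ≤ r) :
    P.raw c r y = 0 := by
  rw [raw_apply, win_apply, h.mono hr c, h.mono (hr.trans (Nat.le_succ r)) c, sub_self]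

theorem Upto.apply_eq_zero {y : ℕ → H} {q : ℕ} (h : P.Upto y q) {c : ℕ} (hc : q ≤ c) :
    y c = 0 := by
  rw [← h c, P.p_eq_zero hc]

theorem Low.van {y : ℕ → H} {lo : ℕ} (h : P.Low y lo) (a : ℕ) {b : ℕ} (hb : b ≤ lo) :
    P.Van y a b := fun c _ _ _ h3 =>
  h.raw_eq_zero c (h3.trans_le hb)

theorem Upto.van {y : ℕ → H} {q : ℕ} (h : P.Upto y q) {a : ℕ} (ha : q ≤ a) (b : ℕ) :
    P.Van y a b := fun c _ _ h2 _ =>
  h.raw_eq_zero c (ha.trans h2)

theorem Van.win_eq_zero {y : ℕ → H} {lo hi : ℕ} (h : P.Van y lo hi) (hl : lo ≤ hi) (c : ℕ) :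
    P.win c lo hi (y c) = 0 := by
  rw [P.win_eq_sum hl]
  refine Finset.sum_eq_zero fun r hr => ?_
  rcases le_or_gt c r with hc | hc
  · exact h c r hc (Finset.mem_Ico.mp hr).1 (Finset.mem_Ico.mp hr).2
  · exact P.raw_eq_zero_of_lt hc y

theorem NB.mono {k k' : ℕ} {y : ℕ → H} {B B' : ℝ} (h : P.NB k y B) (hk : k' ≤ k) (hB : B ≤ B') :
    P.NB k' y B' := ⟨h.1.trans hB, fun c r h1 h2 => (h.2 c r h1 (h2.trans_le hk)).trans hB⟩

theorem NB.le {k : ℕ} {y : ℕ → H} {B : ℝ} (h : P.NB k y B) (c : ℕ) {r : ℕ} (hr : r < k) :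
    ‖P.co c r y‖ ≤ B := by
  rcases le_or_gt c r with hc | hc
  · exact h.2 c r hc hr
  · rw [P.co_eq_zero_of_lt hc, norm_zero]; exact h.1

theorem Bd.nonneg {y : ℕ → H} {B : ℝ} (h : P.Bd y B) : 0 ≤ B := (norm_nonneg _).trans (h 0 0)

theorem Bd.nb {y : ℕ → H} {B : ℝ} (h : P.Bd y B) (k : ℕ) : P.NB k y B := ⟨h.nonneg, fun c r _ _ => h c r⟩

theorem bd_of_forall_nb {y : ℕ → H} {B : ℝ} (h : ∀ k, P.NB k y B) : P.Bd y B := fun c r =>
  (h (r + 1)).le c (Nat.lt_succ_self r)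

theorem Bd.mono {y : ℕ → H} {B B' : ℝ} (h : P.Bd y B) (hB : B ≤ B') : P.Bd y B' := fun c r => (h c r).trans hB

theorem bd_zero : P.Bd 0 0 := fun c r => by rw [map_zero, norm_zero]

theorem Bd.add {y y' : ℕ → H} {B B' : ℝ} (h : P.Bd y B) (h' : P.Bd y' B') :
    P.Bd (y + y') (B + B') := fun c r => by
  rw [map_add]; exact (norm_add_le _ _).trans (add_le_add (h c r) (h' c r))

theorem Bd.sub {y y' : ℕ → H} {B B' : ℝ} (h : P.Bd y B) (h' : P.Bd y' B') :
    P.Bd (y - y') (B + B') := fun c r => by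
  rw [map_sub]; exact (norm_sub_le _ _).trans (add_le_add (h c r) (h' c r))

theorem Bd.smul {y : ℕ → H} {B : ℝ} (h : P.Bd y B) (k : ℂ) : P.Bd (k • y) (‖k‖ * B) := fun c r => by
  rw [map_smul, norm_smul]; exact mul_le_mul_of_nonneg_left (h c r) (norm_nonneg _)

theorem bd_sum {ι : Type*} {J : Finset ι} {x : ι → ℕ → H} {B : ι → ℝ}
    (h : ∀ k ∈ J, P.Bd (x k) (B k)) : P.Bd (∑ k ∈ J, x k) (∑ k ∈ J, B k) := fun c r => by
  rw [map_sum]; exact (norm_sum_le _ _).trans (Finset.sum_le_sum fun k hk => h k hk c r)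

theorem Small.mono {s s' : ℕ} {C C' : ℝ} {y : ℕ → H} (h : P.Small s C y) (hs : s' ≤ s)
    (hC : C ≤ C') : P.Small s' C' y := fun n hn =>
  (h n (hn.trans hs)).trans (div_le_div_of_nonneg_right hC (mm_pos _).le)

theorem Small.add {s : ℕ} {C C' : ℝ} {y y' : ℕ → H} (h : P.Small s C y) (h' : P.Small s C' y') :
    P.Small s (C + C') (y + y') := fun n hn => by
  rw [map_add, add_div]; exact (norm_add_le _ _).trans (add_le_add (h n hn) (h' n hn))

theorem Small.smul {s : ℕ} {C : ℝ} {y : ℕ → H} (h : P.Small s C y) (k : ℂ) :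
    P.Small s (‖k‖ * C) (k • y) := fun n hn => by
  rw [map_smul, norm_smul, mul_div_assoc]
  exact mul_le_mul_of_nonneg_left (h n hn) (norm_nonneg _)

/-! ### The action shifts supports by at most one rank -/

theorem Low.T {y : ℕ → H} {lo s : ℕ} (h : P.Low y (lo + 1)) (hs : s ≤ lo) {a : A}
    (ha : a ∈ P.R.V s) : P.Low (P.R.T a y) lo := fun c => by
  rw [Amb.T_apply, ← P.p_act hs ha, h c, map_zero, map_zero]

theorem Upto.T {y : ℕ → H} {q s : ℕ} (h : P.Upto y q) (hs : s ≤ q) {a : A}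
    (ha : a ∈ P.R.V s) : P.Upto (P.R.T a y) (q + 1) := fun c => by
  rw [Amb.T_apply, ← h c, P.p_act_p hs ha]

/-! ### The projections -/

theorem upto_Pq (q : ℕ) (y : ℕ → H) : P.Upto (P.Pq q y) q := fun c => by
  rw [Pq_apply, P.p_p_of_ge le_rfl]

theorem low_sub_Pq (q : ℕ) (y : ℕ → H) : P.Low (y - P.Pq q y) q := fun c => by
  rw [Pi.sub_apply, Pq_apply, map_sub, P.p_p_of_ge le_rfl, sub_self]

theorem Upto.Pq_eq {y : ℕ → H} {q : ℕ} (h : P.Upto y q) : P.Pq q y = y := funext h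

theorem Low.Pq_eq {y : ℕ → H} {q : ℕ} (h : P.Low y q) : P.Pq q y = 0 := funext h

theorem raw_Pq (q c : ℕ) {r : ℕ} (hr : r < q) (y : ℕ → H) :
    P.raw c r (P.Pq q y) = P.raw c r y := by
  rw [raw_apply, raw_apply, Pq_apply, win_apply, win_apply, P.p_p_of_le hr.le,
    P.p_p_of_le (Nat.succ_le_of_lt hr)]

/-! ### Steps -/

theorem IsStep.ξ_lt {n : ℕ} (h : P.IsStep n) : (P.h n).ξ < n := by
  have := h.vB.le
  have := h.q
  omega

theorem IsStep.not_start {n : ℕ} (h : P.IsStep n) : ¬ P.IsStart n := fun h' => by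
  have := h.age
  have := h'.age
  omega

theorem norm_inv_mm (j : ℕ) : ‖((mm j : ℂ)⁻¹)‖ = (mm j)⁻¹ := by
  rw [norm_inv, Complex.norm_real, Real.norm_of_nonneg (mm_pos j).le]

theorem IsStep.norm_U_le {n : ℕ} (h : P.IsStep n) (x : H) : ‖(P.h n).U x‖ ≤ ‖x‖ := ((P.h n).U.le_opNorm x).trans (mul_le_of_le_one_left (norm_nonneg x) h.vU.1)

theorem IsStep.norm_cm_le {n : ℕ} (h : P.IsStep n) (y : ℕ → H) :
    ‖(P.h n).cm y‖ ≤ ‖P.fE (P.h n).ξ y‖ + (mm (P.h n).w)⁻¹ * ‖(P.h n).b y‖ := by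
  rw [h.cm]
  refine (norm_add_le _ _).trans (add_le_add (h.norm_U_le _) ?_)
  rw [norm_smul, norm_inv_mm]

theorem IsStart.co_eq {n : ℕ} (h : P.IsStart n) (r : ℕ) (y : ℕ → H) :
    P.co n r y = P.raw n r y := by
  rw [co_apply, raw_apply, h.cm, LinearMap.zero_apply, add_zero]

variable [hG : P.Good]

theorem order_aux (n : ℕ) :
    (P.h n).w ≤ (P.h n).st ∧ (P.h n).st ≤ (P.h n).l ∧ (P.h n).l ≤ n := by
  induction n using Nat.strong_induction_on with
  | _ n ih =>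
    rcases hG.cases n with h | h
    · have := h.w
      have := h.st
      have := h.l
      omega
    · have := ih _ h.ξ_lt
      have := h.w
      have := h.st
      have := h.l
      have := h.ξ_lt
      omega

theorem w_le_st (n : ℕ) : (P.h n).w ≤ (P.h n).st := (order_aux n).1

theorem st_le_l (n : ℕ) : (P.h n).st ≤ (P.h n).l := (order_aux n).2.1

theorem l_le (n : ℕ) : (P.h n).l ≤ n := (order_aux n).2.2

theorem st_le (n : ℕ) : (P.h n).st ≤ n := (st_le_l n).trans (l_le n)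

theorem w_le (n : ℕ) : (P.h n).w ≤ n := (w_le_st n).trans (st_le n)

theorem age_le (n : ℕ) : (P.h n).age ≤ nn (P.h n).w := by
  rcases hG.cases n with h | h
  · rw [h.age]; exact Nat.zero_le _
  · exact h.age_le

theorem p_cm {c r : ℕ} (h : c < r) (y : ℕ → H) : P.p c r ((P.h c).cm y) = (P.h c).cm y :=
  P.p_of_mem (P.Hs_mono c (by
    have := tau_add_two_le c
    have := tau_mono (Nat.succ_le_of_lt h)
    rw [Nat.succ_eq_add_one] at this
    omega) (P.F_le c (hG.cm_mem c y)))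

theorem co_eq_raw {c r : ℕ} (h : c ≠ r) (y : ℕ → H) : P.co c r y = P.raw c r y := by
  rcases lt_or_gt_of_ne h with h | h
  · rw [co_apply, raw_apply, map_add, P.win_apply c r (r + 1) ((P.h c).cm y), p_cm h,
      p_cm (h.trans (Nat.lt_succ_self r)), sub_self, add_zero]
  · rw [P.co_eq_zero_of_lt h, P.raw_eq_zero_of_lt h]

theorem co_self (n : ℕ) (y : ℕ → H) : P.co n n y = P.raw n n y + (P.h n).cm y := by
  rw [co_apply, raw_apply, map_add, ← P.p_eq_win_self n ((P.h n).cm y), p_cm (Nat.lt_succ_self n)]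

theorem g_cm (n : ℕ) (y : ℕ → H) : P.g n n ((P.h n).cm y) = (P.h n).cm y := P.g_of_mem (P.F_le n (hG.cm_mem n y))

theorem fE_eq_add (n : ℕ) (y : ℕ → H) : P.fE n y = P.g n n (P.raw n n y) + (P.h n).cm y := by
  rw [fE_eq, co_self, map_add, g_cm]

theorem cm_eq_zero {n : ℕ} {y : ℕ → H} (h : P.Van y (P.h n).st n) : (P.h n).cm y = 0 := by
  induction n using Nat.strong_induction_on with
  | _ n ih =>
    rcases hG.cases n with hn | hn
    · rw [hn.cm, LinearMap.zero_apply]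
    · have h1 := hn.ξ_lt
      have h2 := hn.st
      have h3 := st_le (P := P) (P.h n).ξ
      have h4 := hn.q
      rw [hn.cm, fE_eq_add, h _ _ le_rfl (by omega) h1, ih _ h1 (h.mono h2.le h1.le),
        hn.vB.dep y (h.mono (by omega) (by omega))]
      simp

theorem co_eq_zero {n : ℕ} {y : ℕ → H} (h : P.Van y (P.h n).st (n + 1)) : P.co n n y = 0 := by
  rw [co_self, h n n le_rfl (st_le n) (Nat.lt_succ_self n), cm_eq_zero (h.mono le_rfl (Nat.le_succ n)),
    add_zero]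

theorem fE_eq_zero {n : ℕ} {y : ℕ → H} (h : P.Van y (P.h n).st (n + 1)) : P.fE n y = 0 := by
  rw [fE_eq, co_eq_zero h, map_zero]

theorem inv_mm_mul_le (j : ℕ) {t B : ℝ} (hB : 0 ≤ B) (h : t ≤ B) : (mm j)⁻¹ * t ≤ B / 8 := by
  have h1 := eight_le_mm j
  have h2 := mm_pos j
  calc (mm j)⁻¹ * t ≤ (mm j)⁻¹ * B := by gcongr
    _ ≤ 8⁻¹ * B := by gcongr
    _ = B / 8 := by ring

theorem norm_cm_le {n : ℕ} {y : ℕ → H} {B : ℝ} (h : P.NB n y B) : ‖(P.h n).cm y‖ ≤ 2 * B := by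
  have hB := h.1
  rcases hG.cases n with hn | hn
  · rw [hn.cm, LinearMap.zero_apply, norm_zero]; positivity
  · have h1 := hn.norm_cm_le y
    have h2 := (P.norm_fE_le (P.h n).ξ y).trans (h.le _ hn.ξ_lt)
    have h3 := inv_mm_mul_le (P.h n).w hB (hn.vB.bd y B (h.mono hn.q le_rfl))
    linarith

theorem NB.raw_le {k : ℕ} {y : ℕ → H} {B : ℝ} (h : P.NB k y B) (c : ℕ) {r : ℕ} (hr : r < k) :
    ‖P.raw c r y‖ ≤ 3 * B := by
  have hB := h.1
  by_cases hc : c = r
  · subst hc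
    have h1 : P.raw c c y = P.co c c y - (P.h c).cm y := by rw [co_self, add_sub_cancel_right]
    have h2 := norm_cm_le (h.mono hr.le le_rfl)
    have h3 := h.le c hr
    rw [h1]
    exact (norm_sub_le _ _).trans (by linarith)
  · rw [← co_eq_raw hc]
    exact (h.le c hr).trans (by linarith)

theorem Bd.raw_le {y : ℕ → H} {B : ℝ} (h : P.Bd y B) (c r : ℕ) : ‖P.raw c r y‖ ≤ 3 * B :=
  (h.nb (r + 1)).raw_le c (Nat.lt_succ_self r)

theorem NB.win_le {k : ℕ} {y : ℕ → H} {B : ℝ} (h : P.NB k y B) (c : ℕ) {lo hi : ℕ}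
    (h1 : lo ≤ hi) (h2 : hi ≤ k) : ‖P.win c lo hi (y c)‖ ≤ ((hi - lo : ℕ) : ℝ) * (3 * B) := P.norm_win_le_mul h1 _ fun _ _ hr => h.raw_le c (hr.trans_le h2)

theorem NB.raw_T_le {k : ℕ} {y : ℕ → H} {B : ℝ} (h : P.NB k y B) (c : ℕ) {r s : ℕ}
    (hs : s + 1 ≤ r) (hr : r + 1 < k) {a : A} (ha : a ∈ P.R.V s) :
    ‖P.raw c r (P.R.T a y)‖ ≤ 9 * ‖a‖ * B := by
  obtain ⟨r, rfl⟩ : ∃ r', r = r' + 1 := ⟨r - 1, by omega⟩
  rw [raw_apply, Amb.T_apply]
  refine (P.norm_win_act (by omega) (Nat.le_succ _) ha _).trans ?_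
  have h1 := h.win_le c (lo := r) (hi := r + 1 + 1 + 1) (by omega) (by omega)
  have h2 : r + 1 + 1 + 1 - r = 3 := by omega
  rw [h2] at h1
  calc _ ≤ ‖a‖ * (((3 : ℕ) : ℝ) * (3 * B)) := by gcongr
    _ = _ := by push_cast; ring

/-- The Bourgain-Delbaen extension estimate. -/
theorem Upto.bd {y : ℕ → H} {q : ℕ} {B : ℝ} (h : P.Upto y q) (hB : P.NB q y B) :
    P.Bd y (2 * B) := by
  have hB0 := hB.1
  refine bd_of_forall_nb fun k => ?_
  induction k with
  | zero => exact ⟨by positivity, fun _ _ _ h => absurd h (Nat.not_lt_zero _)⟩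
  | succ k ih =>
    refine ⟨ih.1, fun c r hc hr => ?_⟩
    rcases lt_or_ge r k with h1 | h1
    · exact ih.2 c r hc h1
    obtain rfl : r = k := by omega
    rcases lt_or_ge r q with h2 | h2
    · exact (hB.2 c r hc h2).trans (by linarith)
    by_cases h3 : c = r
    swap
    · rw [co_eq_raw h3, h.raw_eq_zero c h2, norm_zero]; exact ih.1
    subst h3
    rw [co_self, h.raw_eq_zero c h2, zero_add]
    rcases hG.cases c with hn | hn
    · rw [hn.cm, LinearMap.zero_apply, norm_zero]; exact ih.1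
    have h4 := hn.norm_cm_le y
    rcases lt_or_ge (P.h c).ξ q with h5 | h5
    · have h6 := (P.norm_fE_le (P.h c).ξ y).trans (hB.le _ h5)
      have h7 := inv_mm_mul_le (P.h c).w ih.1 (hn.vB.bd y _ (ih.mono hn.q le_rfl))
      linarith
    · have h6 := (P.norm_fE_le (P.h c).ξ y).trans (ih.le _ hn.ξ_lt)
      rw [hn.vB.dep y (h.van (by omega) _), norm_zero, mul_zero] at h4
      linarith

theorem nb_of_raw {k : ℕ} {y : ℕ → H} {M : ℝ} (hM : 0 ≤ M)
    (h : ∀ c r, r < k → ‖P.raw c r y‖ ≤ M) : P.NB k y (3 ^ k * M) := by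
  induction k with
  | zero => exact ⟨by positivity, fun _ _ _ h => absurd h (Nat.not_lt_zero _)⟩
  | succ k ih =>
    have ih := ih fun c r hr => h c r (hr.trans (Nat.lt_succ_self k))
    have h1 : M ≤ 3 ^ k * M := le_mul_of_one_le_left hM (one_le_pow₀ (by norm_num))
    have h2 : 3 ^ (k + 1) * M = 3 * (3 ^ k * M) := by ring
    rw [h2]
    refine ⟨by linarith [ih.1], fun c r hc hr => ?_⟩
    have h3 := h c r hr
    by_cases h4 : c = r
    · subst h4
      have h5 := norm_cm_le (ih.mono (Nat.lt_succ_iff.mp hr) le_rfl)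
      rw [co_self]
      exact (norm_add_le _ _).trans (by linarith)
    · rw [co_eq_raw h4]; linarith [ih.1]

theorem Upto.exists_bd {y : ℕ → H} {q : ℕ} (h : P.Upto y q) : ∃ B, P.Bd y B := by
  refine ⟨_, h.bd (B := ∑ c ∈ Finset.range q, ∑ r ∈ Finset.range q, ‖P.co c r y‖)
    ⟨by positivity, fun c r hc hr => ?_⟩⟩
  refine le_trans ?_ (Finset.single_le_sum (f := fun c => ∑ r ∈ Finset.range q, ‖P.co c r y‖)
    (fun _ _ => by positivity) (Finset.mem_range.mpr (hc.trans_lt hr)))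
  exact Finset.single_le_sum (f := fun r => ‖P.co c r y‖) (fun _ _ => norm_nonneg _)
    (Finset.mem_range.mpr hr)

theorem Upto.eq_zero {y : ℕ → H} {q : ℕ} (h : P.Upto y q) (h0 : P.Bd y 0) : y = 0 := by
  ext c
  have h1 := (h0.nb q).win_le c (Nat.zero_le q) le_rfl
  rw [← P.p_eq_win, h c] at h1
  simpa using h1

theorem cm_congr {n : ℕ} {y y' : ℕ → H} (h : ∀ c r, r < n → P.raw c r y = P.raw c r y') :
    (P.h n).cm y = (P.h n).cm y' := by
  rw [← sub_eq_zero, ← map_sub]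
  exact cm_eq_zero fun c r _ _ hr => by rw [map_sub, h c r hr, sub_self]

theorem co_Pq (q c : ℕ) {r : ℕ} (hr : r < q) (y : ℕ → H) : P.co c r (P.Pq q y) = P.co c r y := by
  by_cases h : c = r
  · subst h
    rw [co_self, co_self, raw_Pq q c hr, cm_congr fun c' r' hr' => raw_Pq q c' (hr'.trans hr) y]
  · rw [co_eq_raw h, co_eq_raw h, raw_Pq q c hr]

theorem NB.Pq {q : ℕ} {y : ℕ → H} {B : ℝ} (h : P.NB q y B) : P.Bd (P.Pq q y) (2 * B) := (upto_Pq q y).bd ⟨h.1, fun c r hc hr => by rw [co_Pq q c hr]; exact h.2 c r hc hr⟩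

/-- Prescribing the corrected coordinates below a given rank. -/
theorem exists_extension {u : ℕ → H} {lo q : ℕ} (h1 : P.Low u lo) (h2 : P.Upto u q) :
    ∃ y, P.Low y lo ∧ P.Upto y q ∧ ∀ c, c < q → y c + (P.h c).cm y = u c := by
  suffices hs : ∀ k, k ≤ q → ∃ y, P.Low y lo ∧ P.Upto y q ∧ (∀ c, k ≤ c → y c = 0) ∧
      ∀ c, c < k → y c + (P.h c).cm y = u c by
    obtain ⟨y, a1, a2, -, a3⟩ := hs q le_rfl
    exact ⟨y, a1, a2, a3⟩
  intro k hk
  induction k with
  | zero => exact ⟨0, low_zero _, upto_zero _, fun _ _ => rfl, fun _ h => absurd h (Nat.not_lt_zero _)⟩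
  | succ k ih =>
    obtain ⟨y, a1, a2, a3, a4⟩ := ih (by omega)
    set v : ℕ → H := Pi.single k (u k - (P.h k).cm y) with hv
    have hcm : ∀ c, c ≤ k → (P.h c).cm (y + v) = (P.h c).cm y := by
      intro c hc
      refine cm_congr fun c' r hr => ?_
      rw [map_add, add_eq_left]
      by_cases h : c' = k
      · exact P.raw_eq_zero_of_lt (by omega) v
      · rw [raw_apply, hv, Pi.single_eq_of_ne h, map_zero]
    refine ⟨y + v, a1.add fun c => ?_, a2.add fun c => ?_, fun c hc => ?_, fun c hc => ?_⟩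
    · by_cases h : c = k
      · subst h
        rcases le_or_gt lo c with h3 | h3
        · exact P.p_eq_zero h3 _
        · rw [hv, Pi.single_eq_same, cm_eq_zero (a1.van _ h3.le), sub_zero, h1 c]
      · rw [hv, Pi.single_eq_of_ne h, map_zero]
    · by_cases h : c = k
      · subst h
        rw [hv, Pi.single_eq_same, map_sub, h2 c, p_cm (by omega)]
      · rw [hv, Pi.single_eq_of_ne h, map_zero]
    · rw [Pi.add_apply, a3 c (by omega), hv, Pi.single_eq_of_ne (by omega), add_zero]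
    · rw [hcm c (by omega), Pi.add_apply]
      by_cases h : c = k
      · subst h
        rw [a3 c le_rfl, hv, Pi.single_eq_same]
        abel
      · rw [hv, Pi.single_eq_of_ne h, add_zero, a4 c (by omega)]

/-- Vectors whose local support avoids a given weight are small on that weight. -/
theorem local_weight {y : ℕ → H} {q j : ℕ} {B : ℝ} (h : P.Upto y q) (hB : P.Bd y B)
    (h0 : ∀ n, n < q → (P.h n).w = j → P.co n n y = 0) (n : ℕ) (hn : (P.h n).w = j) :
    ‖P.co n n y‖ ≤ B / mm j := by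
  have hB0 := hB.nonneg
  have hm := mm_pos j
  induction n using Nat.strong_induction_on with
  | _ n ih =>
    rcases lt_or_ge n q with h1 | h1
    · rw [h0 n h1 hn, norm_zero]; positivity
    rw [co_self, h.raw_eq_zero n h1, zero_add]
    rcases hG.cases n with hs | hs
    · rw [hs.cm, LinearMap.zero_apply, norm_zero]; positivity
    have h2 := hs.norm_cm_le y
    have h3 : (P.h (P.h n).ξ).w = j := hs.w ▸ hn
    rcases lt_or_ge (P.h n).ξ q with h5 | h5
    · rw [fE_eq, h0 _ h5 h3, map_zero, norm_zero, zero_add, hn] at h2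
      refine h2.trans ?_
      rw [div_eq_inv_mul]
      gcongr
      exact hs.vB.bd y B (hB.nb _)
    · rw [hs.vB.dep y (h.van (by omega) _), norm_zero, mul_zero, add_zero] at h2
      exact h2.trans ((P.norm_fE_le _ y).trans (ih _ hs.ξ_lt h3))

end Pre

end Pool.Agent.MP_1acf33_an
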