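import Pool.Agent.MP_1acf33_an.Sys

/-!
Existence of a correctly built system.
-/

set_option linter.style.haveILetI false
set_option linter.unusedSectionVars false

namespace Pool.Agent.MP_1acf33_an

open scoped InnerProductSpace

variable {A : Type*} [CStarAlgebra A] {H : Type*} [NormedAddCommGroup H]
  [InnerProductSpace ℂ H] [CompleteSpace H]

section locality

variable {R : Amb A H} {h h' : ℕ → Node H}

theorem fix_Hs {c : ℕ} (hc : h c = h' c) : (Pre.mk R h).Hs c = (Pre.mk R h').Hs c := by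
  funext t; simp only [Pre.Hs, hc]

theorem fix_p {c : ℕ} (hc : h c = h' c) : (Pre.mk R h).p c = (Pre.mk R h').p c := by
  funext r; simp only [Pre.p, fix_Hs hc]

theorem fix_win {c : ℕ} (hc : h c = h' c) : (Pre.mk R h).win c = (Pre.mk R h').win c := by
  funext lo hi; simp only [Pre.win, fix_p hc]

theorem fix_g {c : ℕ} (hc : h c = h' c) : (Pre.mk R h).g c = (Pre.mk R h').g c := by
  funext n; simp only [Pre.g, fix_Hs hc]

theorem fix_raw {c : ℕ} (hc : h c = h' c) : (Pre.mk R h).raw c = (Pre.mk R h').raw c := by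
  funext r; simp only [Pre.raw, fix_win hc]

theorem fix_co {c : ℕ} (hc : h c = h' c) : (Pre.mk R h).co c = (Pre.mk R h').co c := by
  funext r; simp only [Pre.co, fix_win hc, hc]

theorem fix_fE {c : ℕ} (hc : h c = h' c) : (Pre.mk R h).fE c = (Pre.mk R h').fE c := by
  simp only [Pre.fE, fix_g hc, hc]

theorem fix_gen {q : ℕ} (hq : ∀ c, c ≤ q → h c = h' c) (ξ : ℕ) (bl : List ℕ) :
    (Pre.mk R h).gen ξ q bl = (Pre.mk R h').gen ξ q bl := by
  unfold Pre.gen
  refine Finset.sum_congr rfl fun c hc => ?_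
  rw [fix_win (hq c (by simpa [Nat.lt_succ_iff] using hc))]

theorem fix_NB {k : ℕ} (hk : ∀ c, c < k → h c = h' c) {y : ℕ → H} {B : ℝ}
    (hy : (Pre.mk R h).NB k y B) : (Pre.mk R h').NB k y B :=
  ⟨hy.1, fun c r hcr hr => by rw [← fix_co (hk c (by omega))]; exact hy.2 c r hcr hr⟩

theorem fix_Van {lo hi : ℕ} (hk : ∀ c, c < hi → h c = h' c) {y : ℕ → H}
    (hy : (Pre.mk R h).Van y lo hi) : (Pre.mk R h').Van y lo hi :=
  fun c r hcr hlo hr => by rw [← fix_raw (hk c (by omega))]; exact hy c r hcr hlo hr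

theorem fix_ValidU {ξ : ℕ} (hc : h ξ = h' ξ) {U : H →L[ℂ] H} (hU : (Pre.mk R h).ValidU ξ U) :
    (Pre.mk R h').ValidU ξ U := by
  unfold Pre.ValidU at hU ⊢
  simpa only [hc] using hU

theorem fix_ValidB {ξ q η : ℕ} (hq : ∀ c, c < q + 2 → h c = h' c) {b : (ℕ → H) →ₗ[ℂ] H}
    (hb : (Pre.mk R h).ValidB ξ q η b) : (Pre.mk R h').ValidB ξ q η b := by
  have hq' : ∀ c, c < q + 2 → h' c = h c := fun c hc => (hq c hc).symm
  have hξ : h' ξ = h ξ := hq' ξ (by have := hb.le; omega)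
  refine ⟨hb.le, fun y hy => hb.dep y (fix_Van (fun c hc => hq' c (by omega)) hy),
    fun y B hy => hb.bd y B (fix_NB hq' hy), fun y B hy => ?_, fun ho => ?_⟩
  · have := hb.defect y B (fix_NB hq' hy)
    simpa only [hξ] using this
  · have h1 := hb.odd (by simpa only [hξ] using ho)
    have hη : h' η = h η := hq' η (by omega)
    refine ⟨h1.1, ?_, ?_⟩
    · simpa only [hη] using h1.2.1
    · rw [fix_fE hη]; exact h1.2.2

theorem fix_cand {ξ q η : ℕ} (hq : ∀ c, c < q + 2 → h c = h' c) {bl : List ℕ}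
    (hb : (Pre.mk R h).ValidB ξ q η ((Pre.mk R h).cand ξ q η bl)) :
    (Pre.mk R h).cand ξ q η bl = (Pre.mk R h').cand ξ q η bl := by
  have hξ : h ξ = h' ξ := hq ξ (by have := hb.le; omega)
  unfold Pre.cand
  by_cases ho : Odd (h ξ).w
  · have h1 := (hb.odd ho).1
    rw [if_pos ho, if_pos (by simpa only [← hξ] using ho), fix_fE (hq η (by omega))]
  · rw [if_neg ho, if_neg (by simpa only [← hξ] using ho), fix_gen fun c hc => hq c (by omega)]

end locality

open Classical in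
/-- A subspace if it is finite-dimensional, zero otherwise. -/
noncomputable def fixFD (K : Submodule ℂ H) : Submodule ℂ H :=
  if FiniteDimensional ℂ K then K else ⊥

instance fixFD_fd (K : Submodule ℂ H) : FiniteDimensional ℂ (fixFD K) := by
  unfold fixFD
  by_cases h : FiniteDimensional ℂ K
  · rw [if_pos h]; exact h
  · rw [if_neg h]; infer_instance

theorem fixFD_eq {K : Submodule ℂ H} (h : FiniteDimensional ℂ K) : fixFD K = K := if_pos h

instance fixD_fd (R : Amb A H) (n : ℕ) :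
    FiniteDimensional ℂ (Submodule.span ℂ (R.D '' Set.Iic n)) :=
  FiniteDimensional.span_of_finite ℂ ((Set.finite_Iic n).image _)

/-- A node that starts a chain. -/
noncomputable def fixStart (R : Amb A H) (n j : ℕ) : Node H where
  w := j
  age := 0
  l := n
  st := n
  ξ := 0
  η := 0
  q := 0
  U := 0
  b := 0
  cm := 0
  F := Submodule.span ℂ (R.D '' Set.Iic n)
  fd := inferInstance

/-- A node that prolongs the chain ending with the node `N`. -/
noncomputable def fixStep (R : Amb A H) (n ξ q η : ℕ) (N : Node H) (U : H →L[ℂ] H)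
    (f b : (ℕ → H) →ₗ[ℂ] H) : Node H where
  w := N.w
  age := N.age + 1
  l := ξ + 1
  st := N.st
  ξ := ξ
  η := η
  q := q
  U := U
  b := b
  cm := (U : H →ₗ[ℂ] H) ∘ₗ f + ((mm N.w : ℂ)⁻¹) • b
  F := Submodule.span ℂ (R.D '' Set.Iic n)
    ⊔ fixFD (LinearMap.range ((U : H →ₗ[ℂ] H) ∘ₗ f + ((mm N.w : ℂ)⁻¹) • b))
  fd := inferInstance

/-- The condition under which a step is made. -/
def fixCond (P : Pre A H) (n ξ q u η : ℕ) (bl : List ℕ) : Prop :=
  q + 2 ≤ n ∧ (P.h ξ).age < nn (P.h ξ).w ∧ P.ValidU ξ (P.R.O u) ∧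
    P.ValidB ξ q η (P.cand ξ q η bl)

open Classical in
/-- The node number `n` for the instruction `x`. -/
noncomputable def fixNext (P : Pre A H) (n : ℕ) : ℕ ⊕ (ℕ × ℕ × ℕ × ℕ × List ℕ) → Node H
  | Sum.inl j => fixStart P.R n (if j ≤ n then j else n)
  | Sum.inr (ξ, q, u, η, bl) =>
    if fixCond P n ξ q u η bl then
      fixStep P.R n ξ q η (P.h ξ) (P.R.O u) (P.fE ξ) (P.cand ξ q η bl)
    else fixStart P.R n n

theorem fixCond_congr {R : Amb A H} {h h' : ℕ → Node H} {n : ℕ} (hn : ∀ i, i < n → h i = h' i)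
    {ξ q u η : ℕ} {bl : List ℕ} (hc : fixCond (Pre.mk R h) n ξ q u η bl) :
    fixCond (Pre.mk R h') n ξ q u η bl := by
  obtain ⟨h1, h2, h3, h4⟩ := hc
  have hq : ∀ c, c < q + 2 → h c = h' c := fun c hc => hn c (by omega)
  have hξ : h ξ = h' ξ := hq ξ (by have := h4.le; omega)
  refine ⟨h1, by simpa only [hξ] using h2, fix_ValidU hξ h3, ?_⟩
  rw [← fix_cand hq h4]
  exact fix_ValidB hq h4

theorem fixNext_congr {R : Amb A H} {h h' : ℕ → Node H} {n : ℕ} (hn : ∀ i, i < n → h i = h' i)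
    (x : ℕ ⊕ (ℕ × ℕ × ℕ × ℕ × List ℕ)) :
    fixNext (Pre.mk R h) n x = fixNext (Pre.mk R h') n x := by
  rcases x with j | ⟨ξ, q, u, η, bl⟩
  · rfl
  · simp only [fixNext]
    by_cases hc : fixCond (Pre.mk R h) n ξ q u η bl
    · have hq : ∀ c, c < q + 2 → h c = h' c := fun c hc' => hn c (by have := hc.1; omega)
      have hξ : h ξ = h' ξ := hq ξ (by have := hc.2.2.2.le; omega)
      rw [if_pos hc, if_pos (fixCond_congr hn hc), fix_cand hq hc.2.2.2, fix_fE hξ, hξ]
    · rw [if_neg hc, if_neg fun hc' => hc (fixCond_congr (fun i hi => (hn i hi).symm) hc')]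

/-- The finite stages of the construction. -/
noncomputable def fixSeq (R : Amb A H) (code : ℕ → ℕ ⊕ (ℕ × ℕ × ℕ × ℕ × List ℕ)) :
    ℕ → ℕ → Node H
  | 0 => fun _ => fixStart R 0 0
  | n + 1 => Function.update (fixSeq R code n) n
      (fixNext (Pre.mk R (fixSeq R code n)) n (code n))

theorem fixSeq_stable (R : Amb A H) (code : ℕ → ℕ ⊕ (ℕ × ℕ × ℕ × ℕ × List ℕ)) (n i : ℕ)
    (hi : i < n) : fixSeq R code n i = fixSeq R code (i + 1) i := by
  induction n, hi using Nat.le_induction with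
  | base => rfl
  | succ k hk ih => rw [fixSeq, Function.update_of_ne (by omega), ih]

theorem fix_exists (R : Amb A H) (code : ℕ → ℕ ⊕ (ℕ × ℕ × ℕ × ℕ × List ℕ)) :
    ∃ h : ℕ → Node H, ∀ n, h n = fixNext (Pre.mk R h) n (code n) := by
  refine ⟨fun n => fixSeq R code (n + 1) n, fun n => ?_⟩
  rw [← fixNext_congr (h := fixSeq R code n) (fun i hi => fixSeq_stable R code n i hi)]
  simp only [fixSeq, Function.update_self]

theorem fix_fd_add {f g : (ℕ → H) →ₗ[ℂ] H} (hf : FiniteDimensional ℂ (LinearMap.range f))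
    (hg : FiniteDimensional ℂ (LinearMap.range g)) :
    FiniteDimensional ℂ (LinearMap.range (f + g)) :=
  Submodule.finiteDimensional_of_le (LinearMap.range_add_le f g)

theorem fix_fd_comp (U : H →ₗ[ℂ] H) {f : (ℕ → H) →ₗ[ℂ] H}
    (hf : FiniteDimensional ℂ (LinearMap.range f)) :
    FiniteDimensional ℂ (LinearMap.range (U ∘ₗ f)) := by
  rw [LinearMap.range_comp]; infer_instance

theorem fix_fd_fE (P : Pre A H) (k : ℕ) : FiniteDimensional ℂ (LinearMap.range (P.fE k)) :=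
  Submodule.finiteDimensional_of_le (S₂ := P.Hs k (tau (k + 1))) (by
    rintro _ ⟨y, rfl⟩
    exact P.g_mem k k _)

theorem fix_fd_gen (P : Pre A H) (ξ q : ℕ) (bl : List ℕ) :
    FiniteDimensional ℂ (LinearMap.range (P.gen ξ q bl)) := by
  unfold Pre.gen
  induction Finset.range (q + 1) using Finset.cons_induction with
  | empty => rw [Finset.sum_empty, LinearMap.range_zero]; infer_instance
  | cons c s hc ih =>
    rw [Finset.sum_cons]
    refine fix_fd_add ?_ ih
    refine Submodule.finiteDimensional_of_le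
      (S₂ := (P.Hs c (tau (q + 1)) ⊔ P.Hs c (tau (ξ + 1))).map
        (P.R.O (bl.getD c 0) : H →ₗ[ℂ] H)) ?_
    rintro _ ⟨y, rfl⟩
    exact ⟨P.win c (ξ + 1) (q + 1) (y c), Submodule.sub_mem _
      (Submodule.mem_sup_left (P.p_mem _ _ _)) (Submodule.mem_sup_right (P.p_mem _ _ _)), rfl⟩

theorem fix_fd_cand (P : Pre A H) (ξ q η : ℕ) (bl : List ℕ) :
    FiniteDimensional ℂ (LinearMap.range (P.cand ξ q η bl)) := by
  unfold Pre.cand
  by_cases h : Odd (P.h ξ).w
  · rw [if_pos h]; exact fix_fd_fE P η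
  · rw [if_neg h]; exact fix_fd_gen P ξ q bl

theorem fix_isStart (P : Pre A H) {n j : ℕ} (hj : j ≤ n) (hn : P.h n = fixStart P.R n j) :
    P.IsStart n := by
  constructor <;> rw [hn]
  exacts [rfl, rfl, rfl, rfl, hj]

theorem fix_isStep (P : Pre A H) {n ξ q u η : ℕ} {bl : List ℕ} (hc : fixCond P n ξ q u η bl)
    (hn : P.h n = fixStep P.R n ξ q η (P.h ξ) (P.R.O u) (P.fE ξ) (P.cand ξ q η bl)) :
    P.IsStep n := by
  constructor <;> rw [hn]
  exacts [hc.2.2.1, hc.2.2.2, hc.1, rfl, rfl, hc.2.1, rfl, rfl, fun y => rfl]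

theorem fix_cases (P : Pre A H) (n : ℕ) (x : ℕ ⊕ (ℕ × ℕ × ℕ × ℕ × List ℕ)) :
    (∃ j, j ≤ n ∧ fixNext P n x = fixStart P.R n j) ∨
      ∃ ξ q u η bl, fixCond P n ξ q u η bl ∧
        fixNext P n x = fixStep P.R n ξ q η (P.h ξ) (P.R.O u) (P.fE ξ) (P.cand ξ q η bl) := by
  rcases x with j | ⟨ξ, q, u, η, bl⟩
  · exact Or.inl ⟨_, by split_ifs <;> omega, rfl⟩
  · by_cases hc : fixCond P n ξ q u η bl
    · exact Or.inr ⟨ξ, q, u, η, bl, hc, if_pos hc⟩
    · exact Or.inl ⟨n, le_rfl, if_neg hc⟩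

theorem exists_good (R : Amb A H) : ∃ P : Pre A H, P.Good := by
  obtain ⟨e, he⟩ := exists_surjective_nat (ℕ ⊕ (ℕ × ℕ × ℕ × ℕ × List ℕ))
  have hcode : ∀ x N, ∃ n, N ≤ n ∧ e (Nat.unpair n).1 = x := by
    intro x N
    obtain ⟨k, rfl⟩ := he x
    exact ⟨Nat.pair k N, Nat.right_le_pair k N, by rw [Nat.unpair_pair]⟩
  obtain ⟨h, hh⟩ := fix_exists R fun n => e (Nat.unpair n).1
  set P : Pre A H := Pre.mk R h with hP
  have hh' : ∀ n, P.h n = fixNext P n (e (Nat.unpair n).1) := hh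
  refine ⟨P, fun n i hi => ?_, fun n y => ?_, fun n => ?_, fun j N => ?_,
    fun ξ q u η bl h1 h2 h3 => ?_⟩
  · have hD : P.R.D i ∈ Submodule.span ℂ (P.R.D '' Set.Iic n) :=
      Submodule.subset_span ⟨i, hi, rfl⟩
    rcases fix_cases P n (e (Nat.unpair n).1) with ⟨j, -, hj⟩ | ⟨ξ, q, u, η, bl, -, hj⟩
    · rw [hh', hj]; exact hD
    · rw [hh', hj]; exact Submodule.mem_sup_left hD
  · rcases fix_cases P n (e (Nat.unpair n).1) with ⟨j, -, hj⟩ | ⟨ξ, q, u, η, bl, -, hj⟩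
    · rw [hh', hj]; exact Submodule.zero_mem _
    · rw [hh', hj]
      refine Submodule.mem_sup_right ?_
      have := fix_fd_cand P ξ q η bl
      rw [fixFD_eq (fix_fd_add (fix_fd_comp _ (fix_fd_fE P ξ))
        (Submodule.finiteDimensional_of_le (LinearMap.range_smul_le_range _ _)))]
      exact LinearMap.mem_range_self _ y
  · rcases fix_cases P n (e (Nat.unpair n).1) with ⟨j, hjn, hj⟩ | ⟨ξ, q, u, η, bl, hc, hj⟩
    · exact Or.inl (fix_isStart P hjn ((hh' n).trans hj))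
    · exact Or.inr (fix_isStep P hc ((hh' n).trans hj))
  · obtain ⟨n, hn, hx⟩ := hcode (Sum.inl j) (max N j)
    have hjn : j ≤ n := le_trans (le_max_right _ _) hn
    have hj : P.h n = fixStart P.R n j := by
      rw [hh', hx, fixNext, if_pos hjn]
    exact ⟨n, le_trans (le_max_left _ _) hn, fix_isStart P hjn hj, by rw [hj]; rfl⟩
  · obtain ⟨n, hn, hx⟩ := hcode (Sum.inr (ξ, q, u, η, bl)) (q + 2)
    have hc : fixCond P n ξ q u η bl := ⟨hn, h1, h2, h3⟩
    have hj : P.h n = fixStep P.R n ξ q η (P.h ξ) (P.R.O u) (P.fE ξ) (P.cand ξ q η bl) := by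
      rw [hh', hx, fixNext, if_pos hc]
    refine ⟨n, fix_isStep P hc hj, ?_⟩
    rw [hj]
    exact ⟨rfl, rfl, rfl, rfl, rfl⟩

end Pool.Agent.MP_1acf33_an
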