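import Pool.Agent.MP_1acf33_an.Act

/-!
The Banach space of the construction and the operators acting on it.
-/

set_option linter.style.haveILetI false
set_option linter.unusedSectionVars false

namespace Pool.Agent.MP_1acf33_an

open scoped InnerProductSpace

variable {A : Type*} [CStarAlgebra A] {H : Type*} [NormedAddCommGroup H]
  [InnerProductSpace ℂ H] [CompleteSpace H]

namespace Amb

variable (R : Amb A H)

/-- The dense subalgebra exhausted by the finite-dimensional pieces. -/
def Vinf : Subalgebra ℂ A where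
  carrier := {a | ∃ n, a ∈ R.V n}
  mul_mem' := fun {a b} ⟨n, hn⟩ ⟨k, hk⟩ => ⟨max n k + 1, R.V_mul _ a b
    (R.V_mono (le_max_left n k) hn) (R.V_mono (le_max_right n k) hk)⟩
  add_mem' := fun {_ _} ⟨n, hn⟩ ⟨k, hk⟩ => ⟨max n k, Submodule.add_mem _
    (R.V_mono (le_max_left n k) hn) (R.V_mono (le_max_right n k) hk)⟩
  algebraMap_mem' := fun r => ⟨0, by
    rw [Algebra.algebraMap_eq_smul_one]; exact Submodule.smul_mem _ _ (R.V_one 0)⟩

theorem dense_Vinf : Dense (R.Vinf : Set A) := by
  rw [Metric.dense_iff]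
  intro a ε hε
  obtain ⟨n, v, hv, h⟩ := R.V_dense a ε hε
  exact ⟨v, by rwa [Metric.mem_ball, dist_comm, dist_eq_norm], n, hv⟩

end Amb

namespace Pre

variable (P : Pre A H)

/-- Finitely supported vectors. -/
def X00 : Submodule ℂ (ℕ → H) where
  carrier := {y | ∃ q, P.Upto y q}
  add_mem' := fun ⟨q, hq⟩ ⟨q', hq'⟩ =>
    ⟨max q q', (hq.mono (le_max_left _ _)).add (hq'.mono (le_max_right _ _))⟩
  zero_mem' := ⟨0, upto_zero 0⟩
  smul_mem' := fun k _ ⟨q, hq⟩ => ⟨q, hq.smul k⟩

/-- Finitely supported vectors, to be equipped with the sup norm of corrected coordinates. -/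
def X0 : Type _ := P.X00

noncomputable instance : AddCommGroup P.X0 := inferInstanceAs (AddCommGroup P.X00)

noncomputable instance : Module ℂ P.X0 := inferInstanceAs (Module ℂ P.X00)

/-- The underlying sequence. -/
def val : P.X0 →ₗ[ℂ] (ℕ → H) := P.X00.subtype

/-- The element of `X0` given by a finitely supported sequence. -/
def mk0 (y : ℕ → H) (h : ∃ q, P.Upto y q) : P.X0 := (⟨y, h⟩ : P.X00)

@[simp] theorem val_mk0 (y : ℕ → H) (h : ∃ q, P.Upto y q) : P.val (P.mk0 y h) = y := rfl

theorem val_injective : Function.Injective P.val := Subtype.val_injective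

theorem exists_upto (y : P.X0) : ∃ q, P.Upto (P.val y) q := y.2

/-- The norm. -/
noncomputable def nrm (y : ℕ → H) : ℝ := ⨆ i : ℕ × ℕ, ‖P.co i.1 i.2 y‖

variable {P}

theorem Bd.nrm_le {y : ℕ → H} {B : ℝ} (h : P.Bd y B) : P.nrm y ≤ B :=
  ciSup_le fun i => h i.1 i.2

theorem Bd.bd_nrm {y : ℕ → H} {B : ℝ} (h : P.Bd y B) : P.Bd y (P.nrm y) := fun c r =>
  le_ciSup (f := fun i : ℕ × ℕ => ‖P.co i.1 i.2 y‖)
    ⟨B, by rintro _ ⟨i, rfl⟩; exact h i.1 i.2⟩ (c, r)

variable [hG : P.Good]

theorem bd_nrm (y : P.X0) : P.Bd (P.val y) (P.nrm (P.val y)) := by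
  obtain ⟨q, hq⟩ := P.exists_upto y
  obtain ⟨B, hB⟩ := hq.exists_bd
  exact hB.bd_nrm

noncomputable instance : NormedAddCommGroup P.X0 :=
  AddGroupNorm.toNormedAddCommGroup
    { toFun := fun y => P.nrm (P.val y)
      map_zero' := le_antisymm (by rw [map_zero]; exact bd_zero.nrm_le) (bd_nrm 0).nonneg
      add_le' := fun y y' => by rw [map_add]; exact ((bd_nrm y).add (bd_nrm y')).nrm_le
      neg' := fun y => by simp [nrm]
      eq_zero_of_map_eq_zero' := fun y hy => by
        obtain ⟨q, hq⟩ := P.exists_upto y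
        apply P.val_injective
        rw [map_zero]
        exact hq.eq_zero (hy ▸ bd_nrm y) }

theorem norm_def (y : P.X0) : ‖y‖ = P.nrm (P.val y) := rfl

theorem bd_norm (y : P.X0) : P.Bd (P.val y) ‖y‖ := bd_nrm y

theorem norm_le_iff {y : P.X0} {B : ℝ} : ‖y‖ ≤ B ↔ P.Bd (P.val y) B :=
  ⟨fun h => (bd_norm y).mono h, fun h => h.nrm_le⟩

noncomputable instance : NormedSpace ℂ P.X0 where
  norm_smul_le k y := norm_le_iff.mpr (by rw [map_smul]; exact (bd_norm y).smul k)

variable (P)

/-- The Banach space. -/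
abbrev X : Type _ := UniformSpace.Completion P.X0

/-- The projections on finitely supported vectors. -/
noncomputable def Pq0 (q : ℕ) : P.X0 →L[ℂ] P.X0 :=
  LinearMap.mkContinuous
    { toFun := fun y => P.mk0 (P.Pq q (P.val y)) ⟨q, upto_Pq q _⟩
      map_add' := fun y y' => P.val_injective (by simp)
      map_smul' := fun k y => P.val_injective (by simp) } 2
    fun y => norm_le_iff.mpr ((bd_norm y).nb q).Pq

theorem val_Pq0 (q : ℕ) (y : P.X0) : P.val (P.Pq0 q y) = P.Pq q (P.val y) := rfl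

theorem norm_Pq0_le (q : ℕ) (y : P.X0) : ‖P.Pq0 q y‖ ≤ 2 * ‖y‖ :=
  norm_le_iff.mpr ((bd_norm y).nb q).Pq

theorem exists_upto_T (a : P.R.Vinf) (y : P.X0) : ∃ q, P.Upto (P.R.T a (P.val y)) q := by
  obtain ⟨q, hq⟩ := P.exists_upto y
  obtain ⟨s, hs⟩ := a.2
  exact ⟨max q s + 1, (hq.mono (le_max_left _ _)).T (le_max_right _ _) hs⟩

/-- The action on finitely supported vectors. -/
noncomputable def T0 (a : P.R.Vinf) : P.X0 →L[ℂ] P.X0 :=
  LinearMap.mkContinuousOfExistsBound
    { toFun := fun y => P.mk0 (P.R.T a (P.val y)) (P.exists_upto_T a y)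
      map_add' := fun y y' => P.val_injective (by simp)
      map_smul' := fun k y => P.val_injective (by simp) }
    (by
      obtain ⟨s, hs⟩ := a.2
      obtain ⟨M, -, hM⟩ := exists_bd_T s hs
      exact ⟨M, fun y => norm_le_iff.mpr (hM _ _ (bd_norm y))⟩)

theorem val_T0 (a : P.R.Vinf) (y : P.X0) : P.val (P.T0 a y) = P.R.T a (P.val y) := rfl

theorem ext_X {S S' : P.X →L[ℂ] P.X} (h : ∀ y : P.X0, S y = S' y) : S = S' := by
  ext x
  induction x using UniformSpace.Completion.induction_on with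
  | hp => exact isClosed_eq S.continuous S'.continuous
  | ih y => exact h y

theorem norm_le_X {S : P.X →L[ℂ] P.X} {M : ℝ} (hM : 0 ≤ M) (h : ∀ y : P.X0, ‖S y‖ ≤ M * ‖y‖) :
    ‖S‖ ≤ M := by
  refine S.opNorm_le_bound hM fun x => ?_
  induction x using UniformSpace.Completion.induction_on with
  | hp => exact isClosed_le (by fun_prop) (by fun_prop)
  | ih y => rw [UniformSpace.Completion.norm_coe]; exact h y

/-- The projections on the Banach space. -/
noncomputable def PP (q : ℕ) : P.X →L[ℂ] P.X := (P.Pq0 q).completion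

theorem PP_coe (q : ℕ) (y : P.X0) : P.PP q y = (P.Pq0 q y : P.X0) :=
  ContinuousLinearMap.completion_apply_coe _ _

theorem norm_PP_le (q : ℕ) : ‖P.PP q‖ ≤ 2 :=
  P.norm_le_X (by norm_num) fun y => by
    rw [PP_coe, UniformSpace.Completion.norm_coe]; exact P.norm_Pq0_le q y

/-- The action on the Banach space. -/
noncomputable def TT : P.R.Vinf →ₐ[ℂ] (P.X →L[ℂ] P.X) where
  toFun a := (P.T0 a).completion
  map_one' := P.ext_X fun y => by
    rw [ContinuousLinearMap.completion_apply_coe, one_apply_eq_self]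
    congr 1
    exact P.val_injective (by rw [val_T0]; exact P.R.T_one _)
  map_mul' a b := P.ext_X fun y => by
    simp only [mul_apply_eq_comp, ContinuousLinearMap.completion_apply_coe]
    congr 1
    exact P.val_injective (by rw [val_T0, val_T0, val_T0]; exact P.R.T_mul _ _ _)
  map_zero' := P.ext_X fun y => by
    rw [ContinuousLinearMap.completion_apply_coe, zero_apply,
      ← UniformSpace.Completion.coe_zero]
    congr 1
    refine P.val_injective ?_
    rw [val_T0, map_zero]
    ext c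
    simp [Amb.T_apply]
  map_add' a b := P.ext_X fun y => by
    simp only [add_apply, ContinuousLinearMap.completion_apply_coe]
    rw [← UniformSpace.Completion.coe_add]
    congr 1
    exact P.val_injective (by rw [map_add, val_T0, val_T0, val_T0]; exact P.R.T_add _ _ _)
  commutes' r := P.ext_X fun y => by
    rw [ContinuousLinearMap.completion_apply_coe, Algebra.algebraMap_eq_smul_one,
      Algebra.algebraMap_eq_smul_one, smul_apply,
      one_apply_eq_self, ← UniformSpace.Completion.coe_smul]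
    congr 1
    refine P.val_injective ?_
    rw [val_T0, map_smul, Subalgebra.coe_smul, Amb.T_smul, Subalgebra.coe_one, Amb.T_one]

theorem TT_coe (a : P.R.Vinf) (y : P.X0) : P.TT a y = (P.T0 a y : P.X0) :=
  ContinuousLinearMap.completion_apply_coe _ _

theorem finite_upto (q : ℕ) :
    FiniteDimensional ℂ (LinearMap.range (P.Pq0 q : P.X0 →ₗ[ℂ] P.X0)) := by
  let f : LinearMap.range (P.Pq0 q : P.X0 →ₗ[ℂ] P.X0) →ₗ[ℂ] (∀ c : Fin q, P.Hs c (tau q)) :=
    { toFun := fun y c => ⟨P.p c q (P.val y c), P.p_mem _ _ _⟩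
      map_add' := fun y y' => by ext c; simp
      map_smul' := fun k y => by ext c; simp }
  refine FiniteDimensional.of_injective f ?_
  rw [injective_iff_map_eq_zero]
  rintro ⟨_, y, rfl⟩ hy
  ext1
  apply P.val_injective
  have hu : P.Upto (P.val (P.Pq0 q y)) q := upto_Pq q _
  ext c
  by_cases hc : c < q
  · have := congrArg Subtype.val (congrFun hy ⟨c, hc⟩)
    exact (hu c).symm.trans this
  · exact hu.apply_eq_zero (not_lt.mp hc)

theorem compact_PP (q : ℕ) : IsCompactOperator (P.PP q) := by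
  haveI := P.finite_upto q
  let E : Submodule ℂ P.X := (LinearMap.range (P.Pq0 q : P.X0 →ₗ[ℂ] P.X0)).map
    (UniformSpace.Completion.toComplL (𝕜 := ℂ) (E := P.X0) : P.X0 →ₗ[ℂ] P.X)
  have hE : ∀ x, P.PP q x ∈ E := by
    intro x
    induction x using UniformSpace.Completion.induction_on with
    | hp => exact E.closed_of_finiteDimensional.preimage (P.PP q).continuous
    | ih y => rw [PP_coe]; exact ⟨P.Pq0 q y, ⟨y, rfl⟩, rfl⟩
  haveI : ProperSpace E := FiniteDimensional.proper ℂ E
  have h1 : IsCompactOperator ((P.PP q).codRestrict E hE) :=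
    isCompactOperator_of_locallyCompactSpace_dom _
  exact h1.clm_comp E.subtypeL

theorem exists_compact_TT (a : P.R.Vinf) :
    ∃ K : P.X →L[ℂ] P.X, IsCompactOperator K ∧ ‖P.TT a - K‖ ≤ 210 * ‖(a : A)‖ := by
  obtain ⟨s, hs⟩ := a.2
  refine ⟨P.TT a ∘L P.PP (s + 2), (P.compact_PP _).clm_comp (P.TT a), ?_⟩
  refine P.norm_le_X (by positivity) fun y => ?_
  rw [sub_apply, ContinuousLinearMap.comp_apply, PP_coe, TT_coe, TT_coe,
    ← UniformSpace.Completion.coe_sub, UniformSpace.Completion.norm_coe, ← map_sub, norm_le_iff,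
    val_T0, map_sub, val_Pq0]
  have h1 := ((bd_norm y).sub ((bd_norm y).nb (s + 2)).Pq).T_low (low_sub_Pq _ _) hs
  exact h1.mono (le_of_eq (by ring))

end Pre

end Pool.Agent.MP_1acf33_an
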