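import Mathlib

/-!
Numerical parameters of the construction.
-/

namespace Pool.Agent.MP_1acf33_an

/-- The pair (exponent, previous length). -/
def parAux : ℕ → ℕ × ℕ
  | 0 => (3, 0)
  | j + 1 =>
    (2 * (parAux j).1 + 2 * (4 ^ (parAux j).1 * ((parAux j).2 + 4) ^ (2 * (parAux j).1 + 1)),
      4 ^ (parAux j).1 * ((parAux j).2 + 4) ^ (2 * (parAux j).1 + 1))

/-- Exponent of the weight. -/
def ee (j : ℕ) : ℕ := (parAux j).1

/-- Upper bound for all earlier lengths. -/
def np (j : ℕ) : ℕ := (parAux j).2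

/-- Maximal length of chains of weight `j`. -/
def nn (j : ℕ) : ℕ := 4 ^ ee j * (np j + 4) ^ (2 * ee j + 1)

/-- The weights. -/
noncomputable def mm (j : ℕ) : ℝ := 2 ^ ee j

theorem ee_succ (j : ℕ) : ee (j + 1) = 2 * ee j + 2 * nn j := rfl

theorem np_succ (j : ℕ) : np (j + 1) = nn j := rfl

theorem ee_zero : ee 0 = 3 := rfl

theorem nn_def (j : ℕ) : nn j = 4 ^ ee j * (np j + 4) ^ (2 * ee j + 1) := rfl

theorem mm_def (j : ℕ) : mm j = 2 ^ ee j := rfl

attribute [irreducible] ee np nn mm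

theorem ee_lt_succ (j : ℕ) : 3 ≤ ee j → ee j < ee (j + 1) := by
  intro h; rw [ee_succ]; omega

theorem three_le_ee (j : ℕ) : 3 ≤ ee j := by
  induction j with
  | zero => rw [ee_zero]
  | succ j ih => have := ee_lt_succ j ih; omega

theorem ee_strictMono : StrictMono ee :=
  strictMono_nat_of_lt_succ fun j => ee_lt_succ j (three_le_ee j)

theorem eight_le_mm (j : ℕ) : 8 ≤ mm j := by
  rw [mm_def]
  calc (8 : ℝ) = 2 ^ 3 := by norm_num
    _ ≤ _ := pow_le_pow_right₀ (by norm_num) (three_le_ee j)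

theorem mm_pos (j : ℕ) : 0 < mm j := lt_of_lt_of_le (by norm_num) (eight_le_mm j)

theorem mm_mono : Monotone mm := fun h j hj => by
  rw [mm_def, mm_def]
  exact pow_le_pow_right₀ (by norm_num) (ee_strictMono.monotone hj)

theorem le_mm (j : ℕ) : (j : ℝ) ≤ mm j := by
  rw [mm_def]
  have h1 : j ≤ ee j := ee_strictMono.le_apply
  have h2 : ee j ≤ 2 ^ ee j := Nat.lt_two_pow_self.le
  exact_mod_cast h1.trans h2

theorem mm_sq_le {h j : ℕ} (hj : h < j) : mm h ^ 2 ≤ mm j := by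
  refine le_trans ?_ (mm_mono (Nat.succ_le_of_lt hj))
  rw [mm_def, mm_def, ← pow_mul]
  exact pow_le_pow_right₀ (by norm_num) (by rw [Nat.succ_eq_add_one, ee_succ]; omega)

theorem nn_sq_le {h j : ℕ} (hj : h < j) : (nn h : ℝ) ^ 2 ≤ mm j := by
  refine le_trans ?_ (mm_mono (Nat.succ_le_of_lt hj))
  rw [mm_def]
  have h2 : (nn h : ℝ) ≤ 2 ^ nn h := by exact_mod_cast Nat.lt_two_pow_self.le
  calc (nn h : ℝ) ^ 2 ≤ (2 ^ nn h) ^ 2 := by gcongr
    _ = 2 ^ (nn h * 2) := by rw [← pow_mul]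
    _ ≤ _ := pow_le_pow_right₀ (by norm_num) (by rw [Nat.succ_eq_add_one, ee_succ]; omega)

theorem nn_cast (j : ℕ) : (nn j : ℝ) = mm j ^ 2 * ((np j : ℝ) + 4) ^ (2 * ee j + 1) := by
  rw [nn_def, mm_def, ← pow_mul, mul_comm (ee j) 2, pow_mul]
  push_cast
  norm_num

theorem mm_sq_le_nn (j : ℕ) : mm j ^ 2 ≤ nn j := by
  rw [nn_cast]
  refine le_mul_of_one_le_right (by positivity) (one_le_pow₀ ?_)
  have : (0 : ℝ) ≤ np j := Nat.cast_nonneg _
  linarith

theorem nn_ge (j : ℕ) : (64 : ℝ) ≤ nn j := by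
  have := mm_sq_le_nn j
  have := eight_le_mm j
  nlinarith

theorem nn_pos (j : ℕ) : 0 < nn j := by
  have := nn_ge j
  have : (0 : ℝ) < nn j := by linarith
  exact_mod_cast this

theorem np_le_nn (j : ℕ) : np j ≤ nn j := by
  rw [nn_def]
  calc np j ≤ np j + 4 := by omega
    _ ≤ (np j + 4) ^ (2 * ee j + 1) := Nat.le_self_pow (by omega) _
    _ ≤ _ := Nat.le_mul_of_pos_left _ (by positivity)

theorem nn_mono : Monotone nn :=
  monotone_nat_of_le_succ fun j => by rw [← np_succ]; exact np_le_nn _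

theorem nn_le_np {h j : ℕ} (hj : h < j) : nn h ≤ np j := by
  obtain ⟨k, rfl⟩ : ∃ k, j = k + 1 := ⟨j - 1, by omega⟩
  rw [np_succ]
  exact nn_mono (by omega)

/-- Length of the averaging window of rank `n`. -/
def KK (n : ℕ) : ℕ := 4 ^ (n + 1)

/-- Time at which rank `n` begins. -/
def tau : ℕ → ℕ
  | 0 => 0
  | n + 1 => tau n + KK n + 1

/-- The error scale. -/
noncomputable def eps (n : ℕ) : ℝ := (2 ^ n)⁻¹

theorem KK_pos (n : ℕ) : 0 < KK n := by unfold KK; positivity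

theorem tau_succ (n : ℕ) : tau (n + 1) = tau n + KK n + 1 := rfl

theorem eps_pos (n : ℕ) : 0 < eps n := by unfold eps; positivity

theorem eps_succ (n : ℕ) : 2 * eps (n + 1) = eps n := by
  unfold eps; rw [pow_succ]; field_simp

theorem eps_add (n k : ℕ) : 2 ^ k * eps (n + k) = eps n := by
  unfold eps; rw [pow_add]; field_simp

theorem eps_zero : eps 0 = 1 := by simp [eps]

theorem two_div_sqrt_KK (n : ℕ) : 2 / √(KK n : ℝ) = eps n := by
  have : (KK n : ℝ) = (2 ^ (n + 1)) ^ 2 := by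
    unfold KK; push_cast; rw [← pow_mul, mul_comm, pow_mul]; norm_num
  rw [this, Real.sqrt_sq (by positivity), eps, pow_succ]
  field_simp

theorem exists_eps_lt {δ : ℝ} (hδ : 0 < δ) : ∃ n, eps n < δ := by
  obtain ⟨n, hn⟩ := exists_pow_lt_of_lt_one hδ (by norm_num : (2 : ℝ)⁻¹ < 1)
  exact ⟨n, by unfold eps; rwa [← inv_pow]⟩

attribute [irreducible] KK tau eps

theorem tau_strictMono : StrictMono tau :=
  strictMono_nat_of_lt_succ fun n => by rw [tau_succ]; omega

theorem tau_mono : Monotone tau := tau_strictMono.monotone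

theorem le_tau (n : ℕ) : n ≤ tau n := tau_strictMono.le_apply

theorem tau_add_two_le (n : ℕ) : tau n + 2 ≤ tau (n + 1) := by
  have := KK_pos n; rw [tau_succ]; omega

theorem eps_anti : Antitone eps :=
  antitone_nat_of_succ_le fun n => by
    have := eps_succ n; have := eps_pos (n + 1); linarith

theorem eps_le_one (n : ℕ) : eps n ≤ 1 := eps_zero ▸ eps_anti (Nat.zero_le n)

end Pool.Agent.MP_1acf33_an
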