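import Mathlib

/-!
Orthogonal projections onto finite-dimensional subspaces, averages of nested projections and
their commutators with block-tridiagonal operators.
-/

set_option linter.style.haveILetI false
set_option linter.unusedSectionVars false

namespace Pool.Agent.MP_1acf33_an

open scoped InnerProductSpace

variable {H : Type*} [NormedAddCommGroup H] [InnerProductSpace ℂ H]

/-- Orthogonal projection onto a finite-dimensional subspace (zero otherwise). -/
noncomputable def pj (K : Submodule ℂ H) : H →L[ℂ] H := by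
  classical
  exact if h : FiniteDimensional ℂ K then (haveI := h; K.starProjection) else 0

theorem pj_eq (K : Submodule ℂ H) [h : FiniteDimensional ℂ K] : pj K = K.starProjection := by
  unfold pj
  rw [dif_pos h]

theorem pj_mem (K : Submodule ℂ H) (x : H) : pj K x ∈ K := by
  by_cases h : FiniteDimensional ℂ K
  · rw [pj_eq]; exact K.starProjection_apply_mem x
  · unfold pj; rw [dif_neg h]; simp

theorem pj_of_mem {K : Submodule ℂ H} [FiniteDimensional ℂ K] {x : H} (hx : x ∈ K) :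
    pj K x = x := by
  rw [pj_eq]; exact Submodule.starProjection_eq_self_iff.mpr hx

theorem pj_bot (x : H) : pj (⊥ : Submodule ℂ H) x = 0 := by
  simpa using pj_mem (⊥ : Submodule ℂ H) x

theorem inner_pj (K : Submodule ℂ H) (x y : H) : ⟪pj K x, y⟫_ℂ = ⟪x, pj K y⟫_ℂ := by
  by_cases h : FiniteDimensional ℂ K
  · rw [pj_eq]; exact K.starProjection_isSymmetric x y
  · unfold pj; rw [dif_neg h]; simp

theorem norm_pj_le (K : Submodule ℂ H) (x : H) : ‖pj K x‖ ≤ ‖x‖ := by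
  by_cases h : FiniteDimensional ℂ K
  · rw [pj_eq]
    calc _ ≤ ‖K.starProjection‖ * ‖x‖ := ContinuousLinearMap.le_opNorm _ _
      _ ≤ 1 * ‖x‖ := by gcongr; exact K.starProjection_norm_le
      _ = _ := one_mul _
  · unfold pj; rw [dif_neg h]; simp

theorem pj_pj_of_ge {K L : Submodule ℂ H} [FiniteDimensional ℂ L] (h : K ≤ L) (x : H) :
    pj L (pj K x) = pj K x := pj_of_mem (h (pj_mem K x))

theorem pj_pj_of_le {K L : Submodule ℂ H} [FiniteDimensional ℂ L] (h : K ≤ L) (x : H) :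
    pj K (pj L x) = pj K x := by
  apply ext_inner_right ℂ
  intro y
  rw [inner_pj, inner_pj, pj_pj_of_ge h, inner_pj]

theorem pj_eq_zero_of_inner {K : Submodule ℂ H} {x : H} (h : ∀ v ∈ K, ⟪v, x⟫_ℂ = 0) :
    pj K x = 0 := by
  apply ext_inner_left ℂ
  intro y
  rw [← inner_pj, h _ (pj_mem K y), inner_zero_right]

/-- Pythagoras for nested projections. -/
theorem norm_sq_pj_sub {K L : Submodule ℂ H} [FiniteDimensional ℂ L] (h : K ≤ L) (x : H) :
    ‖pj L x - pj K x‖ ^ 2 = ‖pj L x‖ ^ 2 - ‖pj K x‖ ^ 2 := by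
  haveI : FiniteDimensional ℂ K := Submodule.finiteDimensional_of_le h
  have h1 : ⟪pj K x, pj L x - pj K x⟫_ℂ = 0 := by
    rw [inner_pj, map_sub, pj_pj_of_le h, pj_pj_of_ge le_rfl, sub_self, inner_zero_right]
  have h2 := norm_add_sq_eq_norm_sq_add_norm_sq_of_inner_eq_zero (𝕜 := ℂ) _ _ h1
  rw [add_sub_cancel] at h2
  nlinarith

theorem norm_pj_sub_le {K L : Submodule ℂ H} [FiniteDimensional ℂ L] (h : K ≤ L) (x : H) :
    ‖pj L x - pj K x‖ ≤ ‖x‖ := by
  have h1 := norm_sq_pj_sub h x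
  have h2 := norm_pj_le L x
  have h3 : ‖pj L x - pj K x‖ ^ 2 ≤ ‖x‖ ^ 2 := by
    nlinarith [norm_nonneg (pj L x), sq_nonneg ‖pj K x‖]
  exact (pow_le_pow_iff_left₀ (norm_nonneg _) (norm_nonneg _) two_ne_zero).mp h3

/-- If `B'` (an adjoint of `B`) maps `K` into `L` then `pj K ∘ B` factors through `pj L`. -/
theorem pj_map_pj {K L : Submodule ℂ H} [FiniteDimensional ℂ L] (B B' : H →L[ℂ] H)
    (hB : ∀ x y, ⟪B' x, y⟫_ℂ = ⟪x, B y⟫_ℂ) (h : ∀ x ∈ K, B' x ∈ L) (v : H) :
    pj K (B (pj L v)) = pj K (B v) := by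
  apply ext_inner_left ℂ
  intro y
  rw [← inner_pj, ← inner_pj K y, ← hB, ← hB, ← inner_pj, pj_of_mem (h _ (pj_mem K y))]

/-- Average of the projections onto `J (s+1), …, J (s+K)`. -/
noncomputable def avg (J : ℕ → Submodule ℂ H) (s K : ℕ) : H →L[ℂ] H :=
  ((K : ℂ)⁻¹) • ∑ k ∈ Finset.range K, pj (J (s + 1 + k))

theorem avg_apply (J : ℕ → Submodule ℂ H) (s K : ℕ) (x : H) :
    avg J s K x = ((K : ℂ)⁻¹) • ∑ k ∈ Finset.range K, pj (J (s + 1 + k)) x := by
  simp [avg]

theorem inv_smul_sum_const {K : ℕ} (hK : 0 < K) (x : H) :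
    ((K : ℂ)⁻¹) • ∑ _k ∈ Finset.range K, x = x := by
  have : (K : ℂ) ≠ 0 := by exact_mod_cast hK.ne'
  rw [Finset.sum_const, Finset.card_range, ← Nat.cast_smul_eq_nsmul ℂ, smul_smul,
    inv_mul_cancel₀ this, one_smul]

theorem inner_avg (J : ℕ → Submodule ℂ H) (s K : ℕ) (x y : H) :
    ⟪avg J s K x, y⟫_ℂ = ⟪x, avg J s K y⟫_ℂ := by
  rw [avg_apply, avg_apply, inner_smul_left, inner_smul_right, sum_inner, inner_sum]
  simp [inner_pj]

theorem norm_avg_le (J : ℕ → Submodule ℂ H) (s K : ℕ) (x : H) : ‖avg J s K x‖ ≤ ‖x‖ := by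
  rcases Nat.eq_zero_or_pos K with rfl | hK
  · simp [avg_apply]
  rw [avg_apply, norm_smul, norm_inv, Complex.norm_natCast]
  have h1 : ‖∑ k ∈ Finset.range K, pj (J (s + 1 + k)) x‖ ≤ K * ‖x‖ := by
    refine (norm_sum_le _ _).trans ?_
    calc _ ≤ ∑ _k ∈ Finset.range K, ‖x‖ := Finset.sum_le_sum fun k _ => norm_pj_le _ _
      _ = _ := by simp
  have h2 : (0 : ℝ) < K := by exact_mod_cast hK
  calc _ ≤ (K : ℝ)⁻¹ * (K * ‖x‖) := by gcongr
    _ = _ := by field_simp

section chain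

variable {J : ℕ → Submodule ℂ H} (hm : Monotone J) (hf : ∀ t, FiniteDimensional ℂ (J t))
include hm hf

theorem avg_mem (s K : ℕ) (x : H) : avg J s K x ∈ J (s + K) := by
  rw [avg_apply]
  refine Submodule.smul_mem _ _ (Submodule.sum_mem _ fun k hk => ?_)
  have := Finset.mem_range.mp hk
  exact hm (by omega) (pj_mem _ _)

theorem avg_of_mem {s K : ℕ} (hK : 0 < K) {x : H} (hx : x ∈ J (s + 1)) : avg J s K x = x := by
  rw [avg_apply, Finset.sum_congr rfl fun k _ =>
    (haveI := hf (s + 1 + k); pj_of_mem (hm (Nat.le_add_right _ k) hx))]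
  exact inv_smul_sum_const hK x

theorem avg_pj_comm (s K t : ℕ) (x : H) : avg J s K (pj (J t) x) = pj (J t) (avg J s K x) := by
  rw [avg_apply, avg_apply, map_smul, map_sum]
  congr 1
  refine Finset.sum_congr rfl fun k _ => ?_
  haveI := hf t
  haveI := hf (s + 1 + k)
  rcases le_total t (s + 1 + k) with h | h
  · rw [pj_pj_of_ge (hm h), pj_pj_of_le (hm h)]
  · rw [pj_pj_of_ge (hm h), pj_pj_of_le (hm h)]

theorem avg_pj_of_ge {s K t : ℕ} (ht : s + K ≤ t) (x : H) :
    avg J s K (pj (J t) x) = avg J s K x := by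
  haveI := hf t
  rw [avg_pj_comm hm hf, pj_of_mem (hm ht (avg_mem hm hf s K x))]

theorem pj_avg_of_le {s K t : ℕ} (hK : 0 < K) (ht : t ≤ s + 1) (x : H) :
    pj (J t) (avg J s K x) = pj (J t) x := by
  rw [← avg_pj_comm hm hf, avg_of_mem hm hf hK (hm ht (pj_mem _ _))]

theorem sum_norm_sq_le (a K : ℕ) (x : H) :
    ∑ k ∈ Finset.range K, ‖pj (J (a + k + 1)) x - pj (J (a + k)) x‖ ^ 2 =
      ‖pj (J (a + K)) x - pj (J a) x‖ ^ 2 := by
  haveI := hf (a + K)
  rw [norm_sq_pj_sub (hm (Nat.le_add_right a K))]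
  induction K with
  | zero => simp
  | succ K ih =>
    haveI := hf (a + K)
    haveI := hf (a + K + 1)
    rw [Finset.sum_range_succ, ih (hf _), norm_sq_pj_sub (hm (Nat.le_succ _))]
    rw [show a + (K + 1) = a + K + 1 from rfl]
    ring

theorem sum_norm_le (a K : ℕ) (x : H) :
    ∑ k ∈ Finset.range K, ‖pj (J (a + k + 1)) x - pj (J (a + k)) x‖ ≤
      √K * ‖pj (J (a + K)) x - pj (J a) x‖ := by
  have h1 := sq_sum_le_card_mul_sum_sq (s := Finset.range K)
    (f := fun k => ‖pj (J (a + k + 1)) x - pj (J (a + k)) x‖)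
  rw [sum_norm_sq_le hm hf, Finset.card_range] at h1
  apply le_of_sq_le_sq _ (by positivity)
  rw [mul_pow, Real.sq_sqrt (by positivity)]
  exact h1

theorem norm_win_mono {a b c d : ℕ} (hab : a ≤ b) (hbc : b ≤ c) (hcd : c ≤ d) (x : H) :
    ‖pj (J c) x - pj (J b) x‖ ≤ ‖pj (J d) x - pj (J a) x‖ := by
  haveI := hf c
  haveI := hf b
  haveI := hf d
  have h1 := norm_pj_sub_le (hm hbc) (pj (J d) x - pj (J a) x)
  rw [map_sub, map_sub, pj_pj_of_le (hm hcd), pj_pj_of_ge (hm (hab.trans hbc)),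
    pj_pj_of_le (hm (hbc.trans hcd)), pj_pj_of_ge (hm hab)] at h1
  simpa using h1

/-- Commutator of an average of nested projections with a tridiagonal operator. -/
theorem norm_comm_avg {s K : ℕ} (hK : 0 < K) (B B' : H →L[ℂ] H)
    (hB : ∀ x y, ⟪B' x, y⟫_ℂ = ⟪x, B y⟫_ℂ)
    (h1 : ∀ t, s ≤ t → ∀ x ∈ J t, B x ∈ J (t + 1))
    (h2 : ∀ t, s ≤ t → ∀ x ∈ J t, B' x ∈ J (t + 1)) (x : H) :
    ‖avg J s K (B x) - B (avg J s K x)‖ ≤
      2 / √K * ‖B‖ * ‖pj (J (s + K + 1)) x - pj (J s) x‖ := by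
  have key : ∀ t, s ≤ t → ‖pj (J (t + 1)) (B x) - B (pj (J (t + 1)) x)‖ ≤
      ‖B‖ * (‖pj (J (t + 1 + 1)) x - pj (J (t + 1)) x‖ + ‖pj (J (t + 1)) x - pj (J t) x‖) := by
    intro t ht
    haveI := hf t
    haveI := hf (t + 1)
    haveI := hf (t + 1 + 1)
    have e1 : pj (J (t + 1)) (B x) = pj (J (t + 1)) (B (pj (J (t + 1 + 1)) x)) :=
      (pj_map_pj B B' hB (h2 (t + 1) (by omega)) x).symm
    have e2 : pj (J (t + 1)) (B (pj (J t) x)) = B (pj (J t) x) :=
      pj_of_mem (h1 t ht _ (pj_mem _ _))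
    set u := B (pj (J (t + 1)) x - pj (J t) x) with hu
    have e3 : pj (J (t + 1)) (B x) - B (pj (J (t + 1)) x) =
        pj (J (t + 1)) (B (pj (J (t + 1 + 1)) x - pj (J (t + 1)) x)) - (u - pj (J (t + 1)) u) := by
      rw [e1, hu]
      simp only [map_sub, e2]
      abel
    have e4 : ‖u - pj (J (t + 1)) u‖ ≤ ‖u‖ := by
      have := norm_pj_sub_le (K := J (t + 1)) (L := J (t + 1) ⊔ Submodule.span ℂ {u})
        le_sup_left u
      rwa [pj_of_mem (Submodule.mem_sup_right (Submodule.mem_span_singleton_self u))] at this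
    rw [e3, mul_add]
    refine (norm_sub_le _ _).trans (add_le_add ?_ ?_)
    · exact (norm_pj_le _ _).trans (B.le_opNorm _)
    · exact e4.trans (B.le_opNorm _)
  have hK' : (0 : ℝ) < K := by exact_mod_cast hK
  have hs : 0 < √(K : ℝ) := Real.sqrt_pos.mpr hK'
  rw [avg_apply, avg_apply, map_smul, map_sum, ← smul_sub, ← Finset.sum_sub_distrib, norm_smul,
    norm_inv, Complex.norm_natCast]
  set w := ‖pj (J (s + K + 1)) x - pj (J s) x‖ with hw
  have b1 : ∑ k ∈ Finset.range K, ‖pj (J (s + k + 1 + 1)) x - pj (J (s + k + 1)) x‖ ≤ √K * w := by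
    have := sum_norm_le hm hf (s + 1) K x
    simp only [show ∀ k, s + 1 + k = s + k + 1 from fun k => by omega] at this
    refine this.trans ?_
    gcongr
    exact norm_win_mono hm hf (by omega) (by omega) le_rfl x
  have b2 : ∑ k ∈ Finset.range K, ‖pj (J (s + k + 1)) x - pj (J (s + k)) x‖ ≤ √K * w := by
    refine (sum_norm_le hm hf s K x).trans ?_
    gcongr
    exact norm_win_mono hm hf le_rfl (by omega) (by omega) x
  have b3 : ‖∑ k ∈ Finset.range K, (pj (J (s + 1 + k)) (B x) - B (pj (J (s + 1 + k)) x))‖ ≤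
      ‖B‖ * (2 * (√K * w)) := by
    refine (norm_sum_le _ _).trans ?_
    calc _ ≤ ∑ k ∈ Finset.range K, ‖B‖ * (‖pj (J (s + k + 1 + 1)) x - pj (J (s + k + 1)) x‖ +
          ‖pj (J (s + k + 1)) x - pj (J (s + k)) x‖) := by
          refine Finset.sum_le_sum fun k _ => ?_
          rw [show s + 1 + k = s + k + 1 by omega]
          exact key (s + k) (by omega)
      _ ≤ _ := by
          rw [← Finset.mul_sum, Finset.sum_add_distrib]
          gcongr
          linarith
  calc _ ≤ (K : ℝ)⁻¹ * (‖B‖ * (2 * (√K * w))) := by gcongr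
    _ = _ := by
      have : (K : ℝ) = √K * √K := (Real.mul_self_sqrt hK'.le).symm
      field_simp
      rw [sq, ← this]
      ring

end chain

end Pool.Agent.MP_1acf33_an
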