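import Pool.Agent.MP_1acf33_an.Amb
import Pool.Agent.MP_1acf33_an.Par

/-!
The Bourgain-Delbaen type system with Hilbert space valued coordinates.
A vector is a sequence `y : ℕ → H` (its raw coordinates).  Coordinate `c` is filtered by the
finite-dimensional spaces `Hs c t`; the part of `y c` between times `tau r` and `tau (r+1)` has
rank `r`.  The norm is the supremum of the norms of the corrected coordinates `co c r y`.
-/

set_option linter.style.haveILetI false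
set_option linter.unusedSectionVars false

namespace Pool.Agent.MP_1acf33_an

open scoped InnerProductSpace

/-- The data attached to one node. -/
structure Node (H : Type*) [NormedAddCommGroup H] [InnerProductSpace ℂ H] where
  w : ℕ
  age : ℕ
  l : ℕ
  st : ℕ
  ξ : ℕ
  η : ℕ
  q : ℕ
  U : H →L[ℂ] H
  b : (ℕ → H) →ₗ[ℂ] H
  cm : (ℕ → H) →ₗ[ℂ] H
  F : Submodule ℂ H
  fd : FiniteDimensional ℂ F

/-- Ambient data together with a sequence of nodes. -/
structure Pre (A : Type*) [CStarAlgebra A] (H : Type*) [NormedAddCommGroup H]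
    [InnerProductSpace ℂ H] [CompleteSpace H] where
  R : Amb A H
  h : ℕ → Node H

variable {A : Type*} [CStarAlgebra A] {H : Type*} [NormedAddCommGroup H]
  [InnerProductSpace ℂ H] [CompleteSpace H]

namespace Amb

variable (R : Amb A H)

/-- The action of the algebra as a bilinear map. -/
noncomputable def act : A →ₗ[ℂ] H →ₗ[ℂ] H where
  toFun a := (R.π a : H →ₗ[ℂ] H)
  map_add' a b := by rw [map_add]; rfl
  map_smul' c a := by rw [map_smul]; rfl

/-- The filtration generated by `F` at time `tau c`. -/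
noncomputable def filt (F : Submodule ℂ H) (c : ℕ) : ℕ → Submodule ℂ H
  | 0 => ⊥
  | t + 1 => Submodule.map₂ R.act (R.V t) (filt F c t) ⊔ (if t = tau c then F else ⊥)

/-- The diagonal action on sequences. -/
noncomputable def T (a : A) : (ℕ → H) →ₗ[ℂ] (ℕ → H) where
  toFun y c := R.π a (y c)
  map_add' y y' := by ext c; simp
  map_smul' k y := by ext c; simp

theorem T_apply (a : A) (y : ℕ → H) (c : ℕ) : R.T a y c = R.π a (y c) := rfl

theorem T_add (a b : A) (y : ℕ → H) : R.T (a + b) y = R.T a y + R.T b y := by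
  ext c; simp [T_apply]

theorem T_sub (a b : A) (y : ℕ → H) : R.T (a - b) y = R.T a y - R.T b y := by
  ext c; simp [T_apply]

theorem T_smul (k : ℂ) (a : A) (y : ℕ → H) : R.T (k • a) y = k • R.T a y := by
  ext c; simp [T_apply]

theorem T_mul (a b : A) (y : ℕ → H) : R.T (a * b) y = R.T a (R.T b y) := by
  ext c; simp [T_apply]

theorem T_one (y : ℕ → H) : R.T 1 y = y := by
  ext c; simp [T_apply]

theorem filt_act (F : Submodule ℂ H) (c t : ℕ) {a : A} (ha : a ∈ R.V t) {x : H}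
    (hx : x ∈ R.filt F c t) : R.π a x ∈ R.filt F c (t + 1) :=
  Submodule.mem_sup_left (Submodule.apply_mem_map₂ R.act ha hx)

theorem filt_mono (F : Submodule ℂ H) (c : ℕ) : Monotone (R.filt F c) :=
  monotone_nat_of_le_succ fun t x hx => by
    simpa using R.filt_act F c t (R.V_one t) hx

theorem filt_eq_bot (F : Submodule ℂ H) (c t : ℕ) (ht : t ≤ tau c) : R.filt F c t = ⊥ := by
  induction t with
  | zero => rfl
  | succ t ih =>
    rw [filt, ih (by omega), if_neg (by omega), Submodule.map₂_bot_right, bot_sup_eq]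

theorem le_filt (F : Submodule ℂ H) (c : ℕ) : F ≤ R.filt F c (tau c + 1) := by
  rw [filt, if_pos rfl]; exact le_sup_right

theorem filt_fd (F : Submodule ℂ H) [hF : FiniteDimensional ℂ F] (c t : ℕ) :
    FiniteDimensional ℂ (R.filt F c t) := by
  induction t with
  | zero => rw [filt]; infer_instance
  | succ t ih =>
    rw [filt]
    have h1 : FiniteDimensional ℂ (Submodule.map₂ R.act (R.V t) (R.filt F c t)) := by
      have := R.V_fd t
      exact Module.Finite.iff_fg.mpr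
        ((Module.Finite.iff_fg.mp this).map₂ _ (Module.Finite.iff_fg.mp ih))
    have h2 : FiniteDimensional ℂ (if t = tau c then F else ⊥ : Submodule ℂ H) := by
      by_cases h : t = tau c
      · rw [if_pos h]; exact hF
      · rw [if_neg h]; infer_instance
    infer_instance

end Amb

namespace Pre

variable (P : Pre A H)

/-- The filtration of coordinate `c`. -/
noncomputable def Hs (c t : ℕ) : Submodule ℂ H := P.R.filt (P.h c).F c t

/-- Projection onto ranks `< r` in coordinate `c`. -/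
noncomputable def p (c r : ℕ) : H →L[ℂ] H := pj (P.Hs c (tau r))

/-- Projection onto ranks in `[lo, hi)` in coordinate `c`. -/
noncomputable def win (c lo hi : ℕ) : H →L[ℂ] H := P.p c hi - P.p c lo

/-- The almost central cutoff of rank `n` in coordinate `c`. -/
noncomputable def g (c n : ℕ) : H →L[ℂ] H := avg (P.Hs c) (tau n) (KK n)

/-- Raw coordinates. -/
noncomputable def raw (c r : ℕ) : (ℕ → H) →ₗ[ℂ] H :=
  (P.win c r (r + 1) : H →ₗ[ℂ] H) ∘ₗ LinearMap.proj c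

/-- Corrected coordinates. -/
noncomputable def co (c r : ℕ) : (ℕ → H) →ₗ[ℂ] H :=
  (P.win c r (r + 1) : H →ₗ[ℂ] H) ∘ₗ (LinearMap.proj c + (P.h c).cm)

/-- Smoothed evaluation at the node `n`. -/
noncomputable def fE (n : ℕ) : (ℕ → H) →ₗ[ℂ] H :=
  (P.g n n : H →ₗ[ℂ] H) ∘ₗ (LinearMap.proj n + (P.h n).cm)

/-- The general maps allowed at even weights. -/
noncomputable def gen (ξ q : ℕ) (bl : List ℕ) : (ℕ → H) →ₗ[ℂ] H :=
  ∑ c ∈ Finset.range (q + 1), ((P.R.O (bl.getD c 0) ∘L P.win c (ξ + 1) (q + 1) : H →L[ℂ] H) :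
    H →ₗ[ℂ] H) ∘ₗ LinearMap.proj c

/-- The candidate map of a step. -/
noncomputable def cand (ξ q η : ℕ) (bl : List ℕ) : (ℕ → H) →ₗ[ℂ] H :=
  if Odd (P.h ξ).w then P.fE η else P.gen ξ q bl

/-- The projection onto ranks `< q`. -/
noncomputable def Pq (q : ℕ) : (ℕ → H) →ₗ[ℂ] (ℕ → H) where
  toFun y c := P.p c q (y c)
  map_add' y y' := by ext c; simp
  map_smul' k y := by ext c; simp

/-- Bound on the corrected coordinates of rank `< k`. -/
def NB (k : ℕ) (y : ℕ → H) (B : ℝ) : Prop :=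
  0 ≤ B ∧ ∀ c r, c ≤ r → r < k → ‖P.co c r y‖ ≤ B

/-- Bound on all corrected coordinates. -/
def Bd (y : ℕ → H) (B : ℝ) : Prop := ∀ c r, ‖P.co c r y‖ ≤ B

/-- The raw coordinates of rank in `[lo, hi)` vanish. -/
def Van (y : ℕ → H) (lo hi : ℕ) : Prop := ∀ c r, c ≤ r → lo ≤ r → r < hi → P.raw c r y = 0

/-- The vector has no component of rank `< lo`. -/
def Low (y : ℕ → H) (lo : ℕ) : Prop := ∀ c, P.p c lo (y c) = 0

/-- The vector only has components of rank `< q`. -/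
def Upto (y : ℕ → H) (q : ℕ) : Prop := ∀ c, P.p c q (y c) = y c

/-- The map depends only on ranks in `[lo, hi)`. -/
def Dep (b : (ℕ → H) →ₗ[ℂ] H) (lo hi : ℕ) : Prop := ∀ y, P.Van y lo hi → b y = 0

/-- Smallness on nodes of weight index at most `s`. -/
def Small (s : ℕ) (C : ℝ) (y : ℕ → H) : Prop :=
  ∀ n, (P.h n).w ≤ s → ‖P.co n n y‖ ≤ C / mm (P.h n).w

/-- Admissible transport operators after the node `ξ`. -/
def ValidU (ξ : ℕ) (U : H →L[ℂ] H) : Prop :=
  ‖U‖ ≤ 1 ∧ ∀ a ∈ P.R.V (P.h ξ).l, ∀ x,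
    ‖U (P.R.π a x) - P.R.π a (U x)‖ ≤ eps (P.h ξ).l * ‖a‖ * ‖x‖

/-- Admissible maps after the node `ξ`. -/
structure ValidB (ξ q η : ℕ) (b : (ℕ → H) →ₗ[ℂ] H) : Prop where
  le : ξ ≤ q
  dep : P.Dep b (ξ + 1) (q + 1)
  bd : ∀ y B, P.NB (q + 2) y B → ‖b y‖ ≤ B
  defect : ∀ y B, P.NB (q + 2) y B → ∀ a ∈ P.R.V (P.h ξ).l,
    ‖b (P.R.T a y) - P.R.π a (b y)‖ ≤ eps (P.h ξ).l * ‖a‖ * B
  odd : Odd (P.h ξ).w → η ≤ q ∧ (P.h η).w = 2 * ξ + 2 ∧ b = P.fE η

/-- The properties of a node that starts a chain. -/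
structure IsStart (n : ℕ) : Prop where
  age : (P.h n).age = 0
  cm : (P.h n).cm = 0
  l : (P.h n).l = n
  st : (P.h n).st = n
  w : (P.h n).w ≤ n

/-- The properties of a node that prolongs a chain. -/
structure IsStep (n : ℕ) : Prop where
  vU : P.ValidU (P.h n).ξ (P.h n).U
  vB : P.ValidB (P.h n).ξ (P.h n).q (P.h n).η (P.h n).b
  q : (P.h n).q + 2 ≤ n
  w : (P.h n).w = (P.h (P.h n).ξ).w
  age : (P.h n).age = (P.h (P.h n).ξ).age + 1
  age_le : (P.h n).age ≤ nn (P.h n).w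
  l : (P.h n).l = (P.h n).ξ + 1
  st : (P.h n).st = (P.h (P.h n).ξ).st
  cm : ∀ y, (P.h n).cm y =
    (P.h n).U (P.fE (P.h n).ξ y) + ((mm (P.h n).w : ℂ)⁻¹) • (P.h n).b y

/-- The system is correctly built. -/
class Good : Prop where
  D_mem : ∀ n i, i ≤ n → P.R.D i ∈ (P.h n).F
  cm_mem : ∀ n y, (P.h n).cm y ∈ (P.h n).F
  cases : ∀ n, P.IsStart n ∨ P.IsStep n
  exists_start : ∀ j N, ∃ n, N ≤ n ∧ P.IsStart n ∧ (P.h n).w = j
  exists_step : ∀ ξ q u η bl, (P.h ξ).age < nn (P.h ξ).w → P.ValidU ξ (P.R.O u) →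
    P.ValidB ξ q η (P.cand ξ q η bl) →
    ∃ n, P.IsStep n ∧ (P.h n).ξ = ξ ∧ (P.h n).q = q ∧ (P.h n).η = η ∧ (P.h n).U = P.R.O u ∧
      (P.h n).b = P.cand ξ q η bl

theorem win_apply (c lo hi : ℕ) (x : H) : P.win c lo hi x = P.p c hi x - P.p c lo x := rfl

theorem raw_apply (c r : ℕ) (y : ℕ → H) : P.raw c r y = P.win c r (r + 1) (y c) := rfl

theorem co_apply (c r : ℕ) (y : ℕ → H) :
    P.co c r y = P.win c r (r + 1) (y c + (P.h c).cm y) := rfl

theorem fE_apply (n : ℕ) (y : ℕ → H) : P.fE n y = P.g n n (y n + (P.h n).cm y) := rfl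

theorem gen_apply (ξ q : ℕ) (bl : List ℕ) (y : ℕ → H) : P.gen ξ q bl y =
    ∑ c ∈ Finset.range (q + 1), P.R.O (bl.getD c 0) (P.win c (ξ + 1) (q + 1) (y c)) := by
  simp [gen]

theorem Pq_apply (q : ℕ) (y : ℕ → H) (c : ℕ) : P.Pq q y c = P.p c q (y c) := rfl

instance Hs_fd (c t : ℕ) : FiniteDimensional ℂ (P.Hs c t) :=
  haveI := (P.h c).fd
  P.R.filt_fd _ c t

theorem Hs_mono (c : ℕ) : Monotone (P.Hs c) := P.R.filt_mono _ c

theorem Hs_eq_bot {c t : ℕ} (ht : t ≤ tau c) : P.Hs c t = ⊥ := P.R.filt_eq_bot _ c t ht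

theorem F_le (c : ℕ) : (P.h c).F ≤ P.Hs c (tau c + 1) := P.R.le_filt _ c

theorem Hs_act {c t s : ℕ} (hs : s ≤ t) {a : A} (ha : a ∈ P.R.V s) {x : H}
    (hx : x ∈ P.Hs c t) : P.R.π a x ∈ P.Hs c (t + 1) :=
  P.R.filt_act _ c t (P.R.V_mono hs ha) hx

theorem p_mem (c r : ℕ) (x : H) : P.p c r x ∈ P.Hs c (tau r) := pj_mem _ _

theorem p_of_mem {c r : ℕ} {x : H} (hx : x ∈ P.Hs c (tau r)) : P.p c r x = x := pj_of_mem hx

theorem p_eq_zero {c r : ℕ} (h : r ≤ c) (x : H) : P.p c r x = 0 := by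
  unfold p; rw [P.Hs_eq_bot (tau_mono h), pj_bot]

theorem p_p_of_le {c r r' : ℕ} (h : r ≤ r') (x : H) : P.p c r (P.p c r' x) = P.p c r x :=
  pj_pj_of_le (P.Hs_mono c (tau_mono h)) x

theorem p_p_of_ge {c r r' : ℕ} (h : r ≤ r') (x : H) : P.p c r' (P.p c r x) = P.p c r x :=
  pj_pj_of_ge (P.Hs_mono c (tau_mono h)) x

theorem norm_p_le (c r : ℕ) (x : H) : ‖P.p c r x‖ ≤ ‖x‖ := norm_pj_le _ _

theorem norm_win_le {c lo hi : ℕ} (h : lo ≤ hi) (x : H) : ‖P.win c lo hi x‖ ≤ ‖x‖ :=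
  norm_pj_sub_le (P.Hs_mono c (tau_mono h)) x

theorem win_eq_zero {c lo hi : ℕ} (h : lo ≤ hi) (hc : hi ≤ c) (x : H) : P.win c lo hi x = 0 := by
  rw [win_apply, P.p_eq_zero hc, P.p_eq_zero (h.trans hc), sub_self]

theorem win_self (c r : ℕ) (x : H) : P.win c r r x = 0 := by rw [win_apply, sub_self]

theorem win_add_win (c a b d : ℕ) (x : H) : P.win c a b x + P.win c b d x = P.win c a d x := by
  simp only [win_apply]; abel

theorem win_eq_sum {c lo hi : ℕ} (h : lo ≤ hi) (x : H) :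
    P.win c lo hi x = ∑ r ∈ Finset.Ico lo hi, P.win c r (r + 1) x := by
  induction hi, h using Nat.le_induction with
  | base => simp [win_self]
  | succ k hk ih => rw [Finset.sum_Ico_succ_top hk, ← ih, win_add_win]

theorem norm_win_le_mul {c lo hi : ℕ} (h : lo ≤ hi) (x : H) {M : ℝ}
    (hM : ∀ r, lo ≤ r → r < hi → ‖P.win c r (r + 1) x‖ ≤ M) :
    ‖P.win c lo hi x‖ ≤ ((hi - lo : ℕ) : ℝ) * M := by
  rw [P.win_eq_sum h]
  refine (norm_sum_le _ _).trans ?_
  rw [← Nat.card_Ico, ← nsmul_eq_mul]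
  exact Finset.sum_le_card_nsmul _ _ _ fun r hr =>
    hM r (Finset.mem_Ico.mp hr).1 (Finset.mem_Ico.mp hr).2

theorem norm_win_mono {c a b d e : ℕ} (hab : a ≤ b) (hbd : b ≤ d) (hde : d ≤ e) (x : H) :
    ‖P.win c b d x‖ ≤ ‖P.win c a e x‖ :=
  MP_1acf33_an.norm_win_mono (P.Hs_mono c) (P.Hs_fd c) (tau_mono hab) (tau_mono hbd)
    (tau_mono hde) x

theorem p_eq_win (c r : ℕ) (x : H) : P.p c r x = P.win c 0 r x := by
  rw [win_apply, P.p_eq_zero (Nat.zero_le c), sub_zero]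

theorem p_eq_win_self (c : ℕ) (x : H) : P.p c (c + 1) x = P.win c c (c + 1) x := by
  rw [win_apply, P.p_eq_zero le_rfl, sub_zero]

/-- The projection onto low ranks of `π a x` only sees slightly higher ranks of `x`. -/
theorem p_act {c r s : ℕ} (hs : s ≤ r) {a : A} (ha : a ∈ P.R.V s) (x : H) :
    P.p c r (P.R.π a (P.p c (r + 1) x)) = P.p c r (P.R.π a x) :=
  pj_map_pj (P.R.π a) (P.R.π (star a)) (P.R.inner_π_star a)
    (fun _ hx => P.Hs_mono c (by have := tau_add_two_le r; omega)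
      (P.Hs_act (hs.trans (le_tau r)) (P.R.V_star s a ha) hx)) x

theorem p_act_p {c r s : ℕ} (hs : s ≤ r) {a : A} (ha : a ∈ P.R.V s) (x : H) :
    P.p c (r + 1) (P.R.π a (P.p c r x)) = P.R.π a (P.p c r x) :=
  P.p_of_mem (P.Hs_mono c (by have := tau_add_two_le r; omega)
    (P.Hs_act (hs.trans (le_tau r)) ha (P.p_mem c r x)))

theorem win_act {c lo hi s : ℕ} (hs : s ≤ lo) (h : lo + 1 ≤ hi) {a : A} (ha : a ∈ P.R.V s)
    (x : H) : P.win c (lo + 1) hi (P.R.π a x) =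
      P.win c (lo + 1) hi (P.R.π a (P.win c lo (hi + 1) x)) := by
  have h1 := P.p_act_p (c := c) hs ha x
  have h2 : P.p c hi (P.R.π a (P.p c lo x)) = P.R.π a (P.p c lo x) := by
    rw [← h1, P.p_p_of_ge h]
  have h3 := P.p_act (c := c) (r := hi) (by omega) ha x
  have h4 : P.p c (lo + 1) (P.R.π a (P.p c (hi + 1) x)) = P.p c (lo + 1) (P.R.π a x) := by
    rw [← P.p_p_of_le h, h3, P.p_p_of_le h]
  simp only [win_apply, map_sub]
  rw [h1, h2, h3, h4]
  abel

theorem norm_win_act {c lo hi s : ℕ} (hs : s ≤ lo) (h : lo + 1 ≤ hi) {a : A}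
    (ha : a ∈ P.R.V s) (x : H) :
    ‖P.win c (lo + 1) hi (P.R.π a x)‖ ≤ ‖a‖ * ‖P.win c lo (hi + 1) x‖ := by
  rw [P.win_act hs h ha]
  exact (P.norm_win_le h _).trans (P.R.norm_π_apply_le _ _)

theorem norm_g_le (c n : ℕ) (x : H) : ‖P.g c n x‖ ≤ ‖x‖ := norm_avg_le _ _ _ _

theorem g_mem (c n : ℕ) (x : H) : P.g c n x ∈ P.Hs c (tau (n + 1)) :=
  P.Hs_mono c (by rw [tau_succ]; omega) (avg_mem (P.Hs_mono c) (P.Hs_fd c) _ _ x)

theorem g_of_mem {c n : ℕ} {x : H} (hx : x ∈ P.Hs c (tau n + 1)) : P.g c n x = x :=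
  avg_of_mem (P.Hs_mono c) (P.Hs_fd c) (KK_pos n) hx

theorem g_p_of_lt {c n r : ℕ} (h : n < r) (x : H) : P.g c n (P.p c r x) = P.g c n x :=
  avg_pj_of_ge (P.Hs_mono c) (P.Hs_fd c)
    (by have := tau_mono (Nat.succ_le_of_lt h); rw [Nat.succ_eq_add_one, tau_succ] at this; omega) x

theorem g_p_of_le {c n r : ℕ} (h : r ≤ n) (x : H) : P.g c n (P.p c r x) = P.p c r x :=
  P.g_of_mem (P.Hs_mono c (by have := tau_mono h; omega) (P.p_mem c r x))

theorem p_g_of_le {c n r : ℕ} (h : r ≤ n) (x : H) : P.p c r (P.g c n x) = P.p c r x :=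
  pj_avg_of_le (P.Hs_mono c) (P.Hs_fd c) (KK_pos n) (by have := tau_mono h; omega) x

theorem p_g_of_lt {c n r : ℕ} (h : n < r) (x : H) : P.p c r (P.g c n x) = P.g c n x :=
  P.p_of_mem (P.Hs_mono c (tau_mono (Nat.succ_le_of_lt h)) (P.g_mem c n x))

theorem g_win_self (n : ℕ) (x : H) : P.g n n (P.win n n (n + 1) x) = P.g n n x := by
  rw [← p_eq_win_self, P.g_p_of_lt (Nat.lt_succ_self n)]

theorem norm_g_self_le (n : ℕ) (x : H) : ‖P.g n n x‖ ≤ ‖P.win n n (n + 1) x‖ := by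
  rw [← g_win_self]; exact P.norm_g_le _ _ _

theorem norm_comm_g {c n s : ℕ} (hs : s ≤ n) {a : A} (ha : a ∈ P.R.V s) (x : H) :
    ‖P.g c n (P.R.π a x) - P.R.π a (P.g c n x)‖ ≤ eps n * ‖a‖ * ‖P.win c n (n + 1) x‖ := by
  have := norm_comm_avg (P.Hs_mono c) (P.Hs_fd c) (s := tau n) (KK_pos n) (P.R.π a)
    (P.R.π (star a)) (P.R.inner_π_star a)
    (fun t ht x hx => P.Hs_act (hs.trans ((le_tau n).trans ht)) ha hx)
    (fun t ht x hx => P.Hs_act (hs.trans ((le_tau n).trans ht)) (P.R.V_star s a ha) hx) x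
  rwa [two_div_sqrt_KK, P.R.norm_π, ← tau_succ] at this

theorem fE_eq (n : ℕ) (y : ℕ → H) : P.fE n y = P.g n n (P.co n n y) := by
  rw [fE_apply, co_apply, g_win_self]

theorem norm_fE_le (n : ℕ) (y : ℕ → H) : ‖P.fE n y‖ ≤ ‖P.co n n y‖ := by
  rw [fE_eq]; exact P.norm_g_le _ _ _

theorem raw_eq_zero_of_lt {c r : ℕ} (h : r < c) (y : ℕ → H) : P.raw c r y = 0 :=
  P.win_eq_zero (Nat.le_succ r) h _

theorem co_eq_zero_of_lt {c r : ℕ} (h : r < c) (y : ℕ → H) : P.co c r y = 0 :=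
  P.win_eq_zero (Nat.le_succ r) h _

end Pre

end Pool.Agent.MP_1acf33_an
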